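import Pool.Agent.H76.SW.T

/-!
The flat level.
-/

namespace Pool.Agent.H76.SW

open Relation

section

variable {A P Q : Type}

/-- The pair of torso variables of a terminal. -/
def prj {n m : ℕ} (src tgt : Fin m → Fin n) (ch : Fin m → Term A) (p q : Fin n) {L : Type}
    (lab : L → (Term.node n m src tgt ch p q).Pos) : L ⊕ Bool → Fin n × Fin n
  | .inl a => Sum.elim (fun v => (v, v)) (fun x => (src x.1, tgt x.1)) (lab a)
  | .inr false => (p, p)
  | .inr true => (q, q)

theorem rho_trans {gs : P → Option (A × Bool) → P → Prop} {tr : Q → A × Bool → Q → Prop}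
    (x y z : P × Q) (h1 : rho gs tr x y) (h2 : rho gs tr y z) : rho gs tr x z :=
  ReflTransGen.trans h1 h2

theorem rho_refl {gs : P → Option (A × Bool) → P → Prop} {tr : Q → A × Bool → Q → Prop}
    (x : P × Q) : rho gs tr x x := ReflTransGen.refl

theorem rho_silent {gs : P → Option (A × Bool) → P → Prop} {tr : Q → A × Bool → Q → Prop}
    {x y : P} (h : gs x none y) (s : Q) : rho gs tr (x, s) (y, s) :=
  ReflTransGen.single (Or.inl ⟨h, rfl⟩)

theorem a1_struct (h5 : U_d5_start) (hf : U_f5_min) (h10 : U_s10_torso) [Fintype Q] (k : ℕ)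
    (gs : P → Option (A × Bool) → P → Prop)
    (hs : Symm gs) (tr : Q → A × Bool → Q → Prop) {n m : ℕ}
    {src tgt : Fin m → Fin n} {ch : Fin m → Term A} {p q : Fin n}
    (hw : TreeWidthLE (torso src tgt) k)
    {ι : (Term.node n m src tgt ch p q).Pos → P}
    (ho : Occ gs (Term.node n m src tgt ch p q) ι) (L : Type) [Fintype L]
    (lab : L → (Term.node n m src tgt ch p q).Pos) :
    ∃ (F : FS P (k + 1)) (mk : L ⊕ Bool → F.N) (e e' : L ⊕ Bool → Fin (k + 1)) (jb : L ⊕ Bool),
      F.size ≤ NB (Fintype.card L + 2) (k + 1) (Fintype.card Q) ∧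
      (p = q → jb = Sum.inr false) ∧ prj src tgt ch p q lab jb = (q, q) ∧
      (∀ j, F.f (mk j) (e j) = ι (Sum.inl (prj src tgt ch p q lab j).1)) ∧
      (∀ j, F.f (mk j) (e' j) = ι (Sum.inl (prj src tgt ch p q lab j).2)) ∧
      ∀ j j' l l' s s', rho gs tr (F.f (mk j) l, s) (F.f (mk j') l', s') →
        F.Gen (rho gs tr) (mk (Sum.inr false), e (Sum.inr false)) (mk jb, e jb)
          ((mk j, l), s) ((mk j', l'), s') := by
  classical
  set jb : L ⊕ Bool := if p = q then Sum.inr false else Sum.inr true with hjb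
  have hb : prj src tgt ch p q lab jb = (q, q) := by
    by_cases hpq : p = q
    · rw [hjb, if_pos hpq]
      simp only [prj, hpq]
    · rw [hjb, if_neg hpq]
      simp only [prj]
  obtain ⟨g, e, e', hg, -, F0, hF0⟩ := h5 (J := L ⊕ Bool) k src tgt hw (rho gs tr)
    (fun x y z => rho_trans x y z) (fun x => rho_refl x) (fun v => ι (Sum.inl v)) p q
    (fun v v' s s' hr => h10 gs hs tr ho v v' s s' hr)
    (prj src tgt ch p q lab) (by
      rintro (a | (_ | _))
      · simp only [prj]
        rcases lab a with v | ⟨i, x⟩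
        · exact Or.inl rfl
        · exact Or.inr ⟨i, rfl⟩
      · exact Or.inl rfl
      · exact Or.inl rfl) (Sum.inr false) jb rfl hb
  obtain ⟨F, ⟨mk, hmk, hG⟩, hsz⟩ := hf (rho gs tr) (fun x y z => rho_trans x y z)
    (fun x => rho_refl x) g (Sum.inr false) jb (e (Sum.inr false)) (e jb) F0 hF0
  refine ⟨F, mk, e, e', jb, ?_, ?_, hb, ?_, ?_, ?_⟩
  · have : Fintype.card (L ⊕ Bool) = Fintype.card L + 2 := by simp
    rw [this] at hsz
    exact hsz
  · intro hpq
    rw [hjb, if_pos hpq]
  · intro j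
    rw [hmk]; exact (hg j).1
  · intro j
    rw [hmk]; exact (hg j).2
  · intro j j' l l' s s' h
    rw [hmk, hmk] at h
    exact hG j j' l l' s s' h

/-- Positions with values which behave like marked slots. -/
def Yt {V : Type} (ρ : P × Q → P × Q → Prop) (X : P → V → Prop) (x : P) (u : V) : Prop :=
  ∃ x', X x' u ∧ ∀ s, ρ (x, s) (x', s) ∧ ρ (x', s) (x, s)

theorem yt_reach {V : Type} {E : V → A → V → Prop} {tr : Q → A × Bool → Q → Prop}
    {gs : P → Option (A × Bool) → P → Prop} {X : P → V → Prop}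
    (hX : ∀ x u y v s s', X x u → X y v → rho gs tr (x, s) (y, s') → Reach E tr (u, s) (v, s'))
    {x y : P} {u v : V} {s s' : Q} (hx : Yt (rho gs tr) X x u) (hy : Yt (rho gs tr) X y v)
    (h : rho gs tr (x, s) (y, s')) : Reach E tr (u, s) (v, s') := by
  obtain ⟨x', hx1, hx2⟩ := hx
  obtain ⟨y', hy1, hy2⟩ := hy
  exact hX x' u y' v s s' hx1 hy1
    (rho_trans _ _ _ (hx2 s).2 (rho_trans _ _ _ h (hy2 s').1))

theorem gen_reach {V : Type} {κ : ℕ} {E : V → A → V → Prop} {tr : Q → A × Bool → Q → Prop}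
    {ρ : P × Q → P × Q → Prop} (F : FS P κ) (h' : F.N × Fin κ → V) (a b : F.N × Fin κ)
    (hfact : ∀ x y s s', ρ (F.f x.1 x.2, s) (F.f y.1 y.2, s') → (x = y ∨ F.graph.Adj x y) →
      Reach E tr (h' x, s) (h' y, s'))
    (hab : ∀ s s', ρ (F.f a.1 a.2, s) (F.f b.1 b.2, s') → Reach E tr (h' a, s) (h' b, s'))
    (hba : ∀ s s', ρ (F.f b.1 b.2, s) (F.f a.1 a.2, s') → Reach E tr (h' b, s) (h' a, s'))
    {u v : (F.N × Fin κ) × Q} (h : F.Gen ρ a b u v) :
    Reach E tr (h' u.1, u.2) (h' v.1, v.2) := by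
  induction h with
  | refl => exact ReflTransGen.refl
  | tail _ hst ih =>
    refine ReflTransGen.trans ih ?_
    cases hst with
    | node x l l' s s' hr =>
      refine hfact (x, l) (x, l') s s' hr ?_
      by_cases hl : l = l'
      · exact Or.inl (by rw [hl])
      · refine Or.inr ⟨fun hh => hl (Prod.mk.inj hh).2, Or.inl rfl⟩
    | up x y l l' s s' hp hl hr =>
      refine hfact (x, l) (y, l') s s' hr (Or.inr ⟨?_, Or.inr (Or.inl ⟨hp, hl⟩)⟩)
      intro hh
      have h1 := F.hrk x y hp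
      rw [(Prod.mk.inj hh).1] at h1
      exact lt_irrefl _ h1
    | down x y l l' s s' hp hl hr =>
      refine hfact (y, l') (x, l) s s' hr (Or.inr ⟨?_, Or.inr (Or.inr ⟨hp, hl⟩)⟩)
      intro hh
      have h1 := F.hrk x y hp
      rw [(Prod.mk.inj hh).1] at h1
      exact lt_irrefl _ h1
    | ab s s' hr => exact hab s s' hr
    | ba s s' hr => exact hba s s' hr

theorem bsz_mono {n n' q w : ℕ} (h : n ≤ n') : bsz n q w ≤ bsz n' q w := by
  unfold bsz
  gcongr

end

theorem pf_A1 (h1 : U_s5_lift) (h2 : U_s7_node) (h3 : U_s9_exit) (h4 : U_s10_torso)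
    (h5 : U_d4_width) (h6 : U_d5_start) (h7 : U_f5_min) (h8 : U_q4_body) (h9 : U_s4_child) :
    U_a1_flat := by
  intro A P Q _ k gs hs tr n m src tgt ch p q hw ι ho L _ lab bd nn hch
  classical
  obtain ⟨F, mk, e, e', jb, hsz, hjb, hprjb, he, he', hG⟩ :=
    a1_struct h6 h7 h4 k gs hs tr hw ho L lab
  let _ : Fintype F.N := F.fin
  -- gadgets
  let G := {i : Fin m // ∃ a x, lab a = Sum.inr ⟨i, x⟩}
  have hGf : ∀ g : G, ∃ a x, lab a = Sum.inr ⟨g.1, x⟩ := fun g => g.2
  choose ag xg hag using hGf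
  have haginj : Function.Injective ag := by
    intro g g' h
    have h1 := hag g
    rw [h, hag g'] at h1
    have h2 := Sum.inr.inj h1
    exact Subtype.ext (congrArg Sigma.fst h2).symm
  have hGcard : Fintype.card G ≤ Fintype.card L := Fintype.card_le_of_injective ag haginj
  have hδ : ∀ g : G, ∃ δ : RQ A, Good gs tr k bd nn
        (fun a : {a : L // ∃ x, lab a = Sum.inr ⟨g.1, x⟩} => ι (lab a.1))
        (fun b => ι (Sum.inr ⟨g.1, (ch g.1).pt b⟩)) δ := fun g => hch g.1 g.2
  choose δ hδ using hδ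
  let eG : Fin (Fintype.card G) ≃ G := (Fintype.equivFin G).symm
  -- the body
  let VT := F.N × Fin (k + 1)
  let Fs : Set ((VT × Q) × (VT × Q)) := {x | rho gs tr (F.f x.1.1.1 x.1.1.2, x.1.2)
    (F.f x.2.1.1 x.2.1.2, x.2.2) ∧ (x.1.1 = x.2.1 ∨ F.graph.Adj x.1.1 x.2.1)}
  let l1 : Fin (Fintype.card G) → VT := fun j => (mk (Sum.inl (ag (eG j))), e (Sum.inl (ag (eG j))))
  let l2 : Fin (Fintype.card G) → VT := fun j => (mk (Sum.inl (ag (eG j))), e' (Sum.inl (ag (eG j))))
  obtain ⟨b, ee, hform, hsimple, hbsz, hbw⟩ := h8 tr VT Fs (Fintype.card G) l1 l2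
  have hVT : Fintype.card VT ≤ NB (Fintype.card L + 2) (k + 1) (Fintype.card Q) * (k + 1) := by
    have : Fintype.card VT = F.size * (k + 1) := by
      simp only [VT, Fintype.card_prod, Fintype.card_fin]
      rfl
    rw [this]
    exact Nat.mul_le_mul_right _ hsz
  have hbn : b.n = Fintype.card VT := by
    have := Fintype.card_congr ee
    rw [Fintype.card_fin] at this
    exact this.symm
  let pvv : Bool → VT := fun c =>
    if c then (mk jb, e jb) else (mk (Sum.inr false), e (Sum.inr false))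
  have hpv : ∀ c, F.f (pvv c).1 (pvv c).2 = ι ((Term.node n m src tgt ch p q).pt c) := by
    intro c
    cases c
    · exact he (Sum.inr false)
    · have := he jb
      rw [hprjb] at this
      exact this
  have hl1 : ∀ j, F.f (l1 j).1 (l1 j).2 = ι (Sum.inl (src (eG j).1)) := by
    intro j
    have := he (Sum.inl (ag (eG j)))
    simp only [prj, hag, Sum.elim_inr] at this
    exact this
  have hl2 : ∀ j, F.f (l2 j).1 (l2 j).2 = ι (Sum.inl (tgt (eG j).1)) := by
    intro j
    have := he' (Sum.inl (ag (eG j)))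
    simp only [prj, hag, Sum.elim_inr] at this
    exact this
  have hlab : ∀ a v, lab a = Sum.inl v →
      F.f (mk (Sum.inl a)) (e (Sum.inl a)) = ι (Sum.inl v) := by
    intro a v hv
    have := he (Sum.inl a)
    simp only [prj, hv, Sum.elim_inl] at this
    exact this
  refine ⟨Fintype.card G, b, fun j => δ (eG j), _, fun j => ee (l1 j), fun j => ee (l2 j),
    fun c => ee (pvv c), fun a => ee (mk (Sum.inl a), e (Sum.inl a)), hGcard,
    hbsz.trans (bsz_mono hVT), hbn ▸ hVT, ?_, hsimple, ?_, hform, ?_, ?_, ?_⟩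
  · refine hbw F.graph k ?_ ?_ (h5 k F)
    · intro x s y s' h hxy
      exact h.2.resolve_left hxy
    · intro j hj
      exact ⟨hj, Or.inl rfl⟩
  · intro j
    exact ⟨(hδ (eG j)).1, (hδ (eG j)).2.1, (hδ (eG j)).2.2.1, (hδ (eG j)).2.2.2.1⟩
  · intro hpq
    have := hjb hpq
    simp only [pvv, this]
    rfl
  · refine ⟨fun v => cl gs (F.f (ee.symm v).1 (ee.symm v).2), ?_, ?_, ?_⟩
    · rw [hform]
      refine ⟨?_, ?_⟩
      · rintro _ ⟨y, hy, rfl⟩
        simp only [Equiv.symm_apply_apply]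
        exact (h1 gs hs tr _ _ _ _).1 hy.1
      · intro j
        have hg := (hδ (eG j)).2.2.2.2.1
        simp only [Equiv.symm_apply_apply, hl1, hl2]
        have e1 := (h2 gs ho (eG j).1 false).2.2
        have e2 := (h2 gs ho (eG j).1 true).2.2
        simp only [Bool.false_eq_true, if_false, if_true] at e1 e2
        rw [← e1, ← e2]
        exact hg
    · intro c
      simp only [Equiv.symm_apply_apply, hpv]
    · intro a x hx
      simp only [Equiv.symm_apply_apply, hlab a x hx]
  · intro V E μ hμ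
    rw [hform] at hμ
    obtain ⟨hμ1, hμ2⟩ := hμ
    set h' : VT → V := fun x => μ (ee x) with hh'
    have hfact : ∀ x y s s', rho gs tr (F.f x.1 x.2, s) (F.f y.1 y.2, s') →
        (x = y ∨ F.graph.Adj x y) → Reach E tr (h' x, s) (h' y, s') := by
      intro x y s s' hr hxy
      exact hμ1 _ ⟨((x, s), (y, s')), ⟨hr, hxy⟩, rfl⟩
    refine ⟨?_, ?_⟩
    · intro c s s' hr
      rw [← hpv c] at hr
      exact hfact (pvv c) (pvv c) s s' hr (Or.inl rfl)
    · intro hRP
      have hgen : ∀ j j' l l' s s', rho gs tr (F.f (mk j) l, s) (F.f (mk j') l', s') →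
          Reach E tr (h' (mk j, l), s) (h' (mk j', l'), s') := by
        intro j j' l l' s s' hr
        refine gen_reach F h' (pvv false) (pvv true) hfact ?_ ?_ (hG j j' l l' s s' hr)
        · intro s s' hr
          rw [hpv, hpv] at hr
          exact hRP false true s s' hr
        · intro s s' hr
          rw [hpv, hpv] at hr
          exact hRP true false s s' hr
      let X : P → V → Prop := fun x u => ∃ j l, x = F.f (mk j) l ∧ u = h' (mk j, l)
      have hX : ∀ x u y v s s', X x u → X y v → rho gs tr (x, s) (y, s') →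
          Reach E tr (u, s) (v, s') := by
        rintro x u y v s s' ⟨j, l, rfl, rfl⟩ ⟨j', l', rfl, rfl⟩ hr
        exact hgen j j' l l' s s' hr
      have hYX : ∀ x u, X x u → Yt (rho gs tr) X x u := fun x u hx =>
        ⟨x, hx, fun s => ⟨ReflTransGen.refl, ReflTransGen.refl⟩⟩
      let hi : G → Bool → V := fun g c => h' (if c then l2 (eG.symm g) else l1 (eG.symm g))
      have hYp : ∀ g c, Yt (rho gs tr) X (ι (Sum.inr ⟨g.1, (ch g.1).pt c⟩)) (hi g c) := by
        intro g c
        have e1 := h2 gs ho g.1 c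
        cases c
        · refine ⟨F.f (l1 (eG.symm g)).1 (l1 (eG.symm g)).2,
            ⟨Sum.inl (ag (eG (eG.symm g))), _, rfl, rfl⟩, fun s => ?_⟩
          rw [hl1, Equiv.apply_symm_apply]
          exact ⟨rho_silent e1.2.1 s, rho_silent e1.1 s⟩
        · refine ⟨F.f (l2 (eG.symm g)).1 (l2 (eG.symm g)).2,
            ⟨Sum.inl (ag (eG (eG.symm g))), _, rfl, rfl⟩, fun s => ?_⟩
          rw [hl2, Equiv.apply_symm_apply]
          exact ⟨rho_silent e1.2.1 s, rho_silent e1.1 s⟩
      have hν : ∀ g : G, ∃ ν : {a : L // ∃ x, lab a = Sum.inr ⟨g.1, x⟩} → V,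
          RP (rho gs tr) (Sum.elim (fun a : {a : L // ∃ x, lab a = Sum.inr ⟨g.1, x⟩} =>
            ι (lab a.1)) (fun b => ι (Sum.inr ⟨g.1, (ch g.1).pt b⟩))) E tr
            (Sum.elim ν (hi g)) := by
        intro g
        refine (hδ g).2.2.2.2.2 V E (hi g) ?_ ?_
        · have := hμ2 (eG.symm g)
          beta_reduce at this
          rw [Equiv.apply_symm_apply] at this
          exact this
        · intro c c' s s' hr
          exact yt_reach hX (hYp g c) (hYp g c') hr
      choose νg hνg using hν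
      have hcase : ∀ a : L, (∃ v, lab a = Sum.inl v) ∨ ∃ g : G, ∃ x, lab a = Sum.inr ⟨g.1, x⟩ := by
        intro a
        rcases hla : lab a with v | ⟨i, x⟩
        · exact Or.inl ⟨v, rfl⟩
        · exact Or.inr ⟨⟨i, a, x, hla⟩, x, rfl⟩
      have hval : ∀ a, ∃ u : V, (∀ v, lab a = Sum.inl v → u = h' (mk (Sum.inl a), e (Sum.inl a))) ∧
          ∀ (g : G) (hg : ∃ x, lab a = Sum.inr ⟨g.1, x⟩), u = νg g ⟨a, hg⟩ := by
        intro a
        rcases hcase a with ⟨v, hla⟩ | ⟨g0, hg0⟩
        · refine ⟨h' (mk (Sum.inl a), e (Sum.inl a)), fun _ _ => rfl, ?_⟩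
          intro g hg
          exfalso
          obtain ⟨x, hx⟩ := hg
          rw [hla] at hx
          exact Sum.inl_ne_inr hx
        · refine ⟨νg g0 ⟨a, hg0⟩, ?_, ?_⟩
          · intro v hv
            exfalso
            obtain ⟨x, hx⟩ := hg0
            rw [hv] at hx
            exact Sum.inl_ne_inr hx
          · intro g hg
            have h3 : g0 = g := by
              obtain ⟨x, hx⟩ := hg0
              obtain ⟨y, hy⟩ := hg
              rw [hx] at hy
              exact Subtype.ext (congrArg Sigma.fst (Sum.inr.inj hy))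
            subst h3
            rfl
      choose ν hνv hνG using hval
      have hYl : ∀ a v, lab a = Sum.inl v → Yt (rho gs tr) X (ι (lab a)) (ν a) := by
        intro a v hv
        refine hYX _ _ ⟨Sum.inl a, e (Sum.inl a), ?_, hνv a v hv⟩
        rw [hv, hlab a v hv]
      have hYq : ∀ c, Yt (rho gs tr) X (ι ((Term.node n m src tgt ch p q).pt c)) (h' (pvv c)) := by
        intro c
        refine hYX _ _ ?_
        cases c
        · exact ⟨Sum.inr false, e (Sum.inr false), (hpv false).symm, rfl⟩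
        · exact ⟨jb, e jb, (hpv true).symm, rfl⟩
      -- leaving and entering a child
      have hRPg : ∀ (a : L) (g : G) (hg : ∃ x, lab a = Sum.inr ⟨g.1, x⟩) (c : Bool) (s s' : Q),
          (rho gs tr (ι (lab a), s) (ι (Sum.inr ⟨g.1, (ch g.1).pt c⟩), s') →
            Reach E tr (ν a, s) (hi g c, s')) ∧
          (rho gs tr (ι (Sum.inr ⟨g.1, (ch g.1).pt c⟩), s) (ι (lab a), s') →
            Reach E tr (hi g c, s) (ν a, s')) := by
        intro a g hg c s s'
        rw [hνG a g hg]
        exact ⟨fun hr => hνg g (Sum.inl ⟨a, hg⟩) (Sum.inr c) s s' hr,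
          fun hr => hνg g (Sum.inr c) (Sum.inl ⟨a, hg⟩) s s' hr⟩
      have hout : ∀ (a : L) (g : G), (∃ x, lab a = Sum.inr ⟨g.1, x⟩) → ∀ y : P,
          y ∉ Set.range (fun x => ι (Sum.inr ⟨g.1, x⟩)) → ∀ s s',
          (rho gs tr (ι (lab a), s) (y, s') → ∃ c s1, Reach E tr (ν a, s) (hi g c, s1) ∧
            rho gs tr (ι (Sum.inr ⟨g.1, (ch g.1).pt c⟩), s1) (y, s')) ∧
          (rho gs tr (y, s) (ι (lab a), s') → ∃ c s1,
            rho gs tr (y, s) (ι (Sum.inr ⟨g.1, (ch g.1).pt c⟩), s1) ∧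
            Reach E tr (hi g c, s1) (ν a, s')) := by
        intro a g hg y hy s s'
        have hsep := h3 gs hs tr (ch g.1) _ (h9 gs ho g.1) (ι (lab a)) y
          (by obtain ⟨x, hx⟩ := hg; exact ⟨x, by rw [hx]⟩) hy
        refine ⟨fun hr => ?_, fun hr => ?_⟩
        · obtain ⟨c, s1, r1, r2⟩ := hsep.1 s s' hr
          exact ⟨c, s1, (hRPg a g hg c s s1).1 r1, r2⟩
        · obtain ⟨c, s1, r1, r2⟩ := hsep.2 s s' hr
          exact ⟨c, s1, r1, (hRPg a g hg c s1 s').2 r2⟩
      have hnr : ∀ (i : Fin m) (v : Fin n),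
          ι (Sum.inl v) ∉ Set.range (fun x => ι (Sum.inr ⟨i, x⟩)) := by
        rintro i v ⟨x, hx⟩
        exact Sum.inr_ne_inl (ho.inj hx)
      have hnr2 : ∀ (i j : Fin m) (x : (ch j).Pos), i ≠ j →
          ι (Sum.inr ⟨j, x⟩) ∉ Set.range (fun x => ι (Sum.inr ⟨i, x⟩)) := by
        rintro i j x hij ⟨y, hy⟩
        exact hij (congrArg Sigma.fst (Sum.inr.inj (ho.inj hy)))
      -- from a good position outside to a label and back
      have hYin : ∀ (a : L) (g : G), (∃ x, lab a = Sum.inr ⟨g.1, x⟩) → ∀ (y : P) (v : V),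
          y ∉ Set.range (fun x => ι (Sum.inr ⟨g.1, x⟩)) → Yt (rho gs tr) X y v → ∀ s s',
          (rho gs tr (ι (lab a), s) (y, s') → Reach E tr (ν a, s) (v, s')) ∧
          (rho gs tr (y, s) (ι (lab a), s') → Reach E tr (v, s) (ν a, s')) := by
        intro a g hg y v hy hYy s s'
        refine ⟨fun hr => ?_, fun hr => ?_⟩
        · obtain ⟨c, s1, r1, r2⟩ := (hout a g hg y hy s s').1 hr
          exact ReflTransGen.trans r1 (yt_reach hX (hYp g c) hYy r2)
        · obtain ⟨c, s1, r1, r2⟩ := (hout a g hg y hy s s').2 hr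
          exact ReflTransGen.trans (yt_reach hX hYy (hYp g c) r1) r2
      refine ⟨ν, ?_, fun a v hv => hνv a v hv⟩
      rintro (a | c) (a' | c') s s' hr
      · simp only [Sum.elim_inl] at hr ⊢
        rcases hcase a with ⟨v, hv⟩ | ⟨g, hg⟩
        · rcases hcase a' with ⟨v', hv'⟩ | ⟨g', hg'⟩
          · exact yt_reach hX (hYl a v hv) (hYl a' v' hv') hr
          · refine (hYin a' g' hg' _ _ ?_ (hYl a v hv) s s').2 hr
            rw [hv]; exact hnr _ _
        · rcases hcase a' with ⟨v', hv'⟩ | ⟨g', hg'⟩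
          · refine (hYin a g hg _ _ ?_ (hYl a' v' hv') s s').1 hr
            rw [hv']; exact hnr _ _
          · by_cases hgg : g.1 = g'.1
            · have hgg' : g = g' := Subtype.ext hgg
              subst hgg'
              rw [hνG a g hg, hνG a' g hg']
              exact hνg g (Sum.inl ⟨a, hg⟩) (Sum.inl ⟨a', hg'⟩) s s' hr
            · have hy : ι (lab a') ∉ Set.range (fun x => ι (Sum.inr ⟨g.1, x⟩)) := by
                obtain ⟨x', hx'⟩ := hg'
                rw [hx']
                exact hnr2 _ _ _ hgg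
              obtain ⟨c, s1, r1, r2⟩ := (hout a g hg _ hy s s').1 hr
              refine ReflTransGen.trans r1 ?_
              exact (hYin a' g' hg' _ _ (hnr2 _ _ _ (Ne.symm hgg)) (hYp g c) s1 s').2 r2
      · simp only [Sum.elim_inl, Sum.elim_inr] at hr ⊢
        rcases hcase a with ⟨v, hv⟩ | ⟨g, hg⟩
        · exact yt_reach hX (hYl a v hv) (hYq c') hr
        · refine (hYin a g hg _ _ ?_ (hYq c') s s').1 hr
          exact hnr _ _
      · simp only [Sum.elim_inl, Sum.elim_inr] at hr ⊢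
        rcases hcase a' with ⟨v, hv⟩ | ⟨g, hg⟩
        · exact yt_reach hX (hYq c) (hYl a' v hv) hr
        · refine (hYin a' g hg _ _ ?_ (hYq c) s s').2 hr
          exact hnr _ _
      · simp only [Sum.elim_inr] at hr ⊢
        exact yt_reach hX (hYq c) (hYq c') hr

end Pool.Agent.H76.SW
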