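import Pool.Agent.H76.SW.T
import Pool.Agent.H86.STW.U6
import Pool.Agent.H69.SW.U3

/-! Module U8 of the board stw_modules. -/

set_option autoImplicit false

namespace Pool.Agent.H76.SW8

open Pool.Agent.H76.SW Pool.Agent.H86.STW Pool.Agent.H69.SW Relation

theorem u8_run_append {A Q : Type} (tr : Q → A × Bool → Q → Prop) (u v : List (A × Bool)) :
    ∀ s s', Run tr s (u ++ v) s' ↔ ∃ t, Run tr s u t ∧ Run tr t v s' := by
  induction u with
  | nil =>
    intro s s'
    constructor
    · intro h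
      exact ⟨s, rfl, h⟩
    · rintro ⟨t, h1, h2⟩
      have : s = t := h1
      rw [this]
      exact h2
  | cons a u ih =>
    intro s s'
    constructor
    · rintro ⟨t, h1, h2⟩
      obtain ⟨t', h3, h4⟩ := (ih t s').1 h2
      exact ⟨t', ⟨t, h1, h3⟩, h4⟩
    · rintro ⟨t', ⟨t, h1, h3⟩, h4⟩
      exact ⟨t, h1, (ih t s').2 ⟨t', h3, h4⟩⟩

theorem pw_ne {A : Type} (u : List (A × Bool)) (hu : 0 < u.length)
    (h : cl (pw u) (pe u false) = cl (pw u) (pe u true)) : False := by
  have hl : ∀ x y : ℕ, pw u x none y → x = y := by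
    rintro x y ⟨a, ⟨h1, -⟩ | ⟨h1, -⟩⟩
    · exact absurd h1 (by simp)
    · exact absurd h1 (by simp)
  have h1 := congrArg (Quot.lift (fun x : ℕ => x) hl) h
  have h2 : (0 : ℕ) = u.length := h1
  omega

/-- one word can be shortened -/
theorem u8_short (h1 : U_u3_replace') (h2 : U_u4_mono) (h3 : U_u5_split)
    {A I Q1 Q2 : Type} [Fintype Q1] [Fintype Q2] [DecidableEq I] {n1 n2 r : ℕ}
    (tr1 : Q1 → A × Bool → Q1 → Prop) (tr2 : Q2 → A × Bool → Q2 → Prop)
    (U2 : Set (Set ((Fin n2 × Q2) × (Fin n2 × Q2)) × (Fin r → Fin n2)))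
    (x y : I → Fin n1) (o : Fin r → Fin n1) (w : I → List (A × Bool)) (e : I) (s s' : Q1)
    (hrun : Run tr1 s (w e) s')
    (hnot : ¬ USat tr2 U2 (canon (ws x y w (fun _ => True))) (fun i => cl _ (Sum.inl (o i))))
    (hlen : KT (Fintype.card Q1) n2 (Fintype.card Q2) < (w e).length) :
    ∃ v : List (A × Bool), v.length < (w e).length ∧ Run tr1 s v s' ∧
      ¬ USat tr2 U2 (canon (ws x y (Function.update w e v) (fun _ => True)))
        (fun i => cl _ (Sum.inl (o i))) := by
  classical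
  have hst : ∀ i : ℕ, ∃ t, Run tr1 s ((w e).take i) t ∧ Run tr1 t ((w e).drop i) s' := by
    intro i
    rw [← u8_run_append, List.take_append_drop]
    exact hrun
  choose st hst1 hst2 using hst
  let T : Type := Q1 × Set (Set (((Fin n2 ⊕ Bool) × Q2) × ((Fin n2 ⊕ Bool) × Q2)))
  let F : Fin (w e).length → T := fun i =>
    (st (i + 1), LT n2 (pw ((w e).take (i + 1))) (pe ((w e).take (i + 1))) tr2)
  have hcard : Fintype.card T < Fintype.card (Fin (w e).length) := by
    have hT : Fintype.card T = KT (Fintype.card Q1) n2 (Fintype.card Q2) := by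
      show Fintype.card (Q1 × Set (Set (((Fin n2 ⊕ Bool) × Q2) × ((Fin n2 ⊕ Bool) × Q2)))) = _
      rw [Fintype.card_prod, Fintype.card_set, Fintype.card_set, Fintype.card_prod,
        Fintype.card_prod, Fintype.card_sum, Fintype.card_fin, Fintype.card_bool]
      unfold KT
      rw [sq]
    rw [hT, Fintype.card_fin]
    exact hlen
  obtain ⟨i, j, hij, hF⟩ := Fintype.exists_ne_map_eq_of_card_lt F hcard
  -- wlog i < j
  have main : ∀ i j : ℕ, 0 < i → i < j → j ≤ (w e).length → st i = st j →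
      LT n2 (pw ((w e).take i)) (pe ((w e).take i)) tr2 =
        LT n2 (pw ((w e).take j)) (pe ((w e).take j)) tr2 →
      ∃ v : List (A × Bool), v.length < (w e).length ∧ Run tr1 s v s' ∧
      ¬ USat tr2 U2 (canon (ws x y (Function.update w e v) (fun _ => True)))
        (fun i => cl _ (Sum.inl (o i))) := by
    intro i j hi0 hij hj hs hL
    refine ⟨(w e).take i ++ (w e).drop j, ?_, ?_, ?_⟩
    · rw [List.length_append, List.length_take, List.length_drop]
      omega
    · rw [u8_run_append]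
      refine ⟨st i, hst1 i, ?_⟩
      rw [hs]
      exact hst2 j
    · intro hsat
      apply hnot
      obtain ⟨⟨φ, hφ1, hφ2⟩, -⟩ := h3 x y w e ((w e).take i) ((w e).drop j)
      obtain ⟨-, ⟨ψ, hψ1, hψ2⟩⟩ := h3 x y w e ((w e).take j) ((w e).drop j)
      have a1 := h2 tr2 U2 _ _ φ hφ2 _ hsat
      simp only [hφ1] at a1
      have a2 := h1 (ws x y (Function.update w e ((w e).drop j)) (fun e' => e' ≠ e))
        (pw ((w e).take i)) (pw ((w e).take j)) (u6_ws_symm _ _ _ _) (u6_pw_symm _)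
        (u6_pw_symm _) (fun b => if b then Sum.inr (e, 0) else Sum.inl (x e))
        (pe ((w e).take i)) (pe ((w e).take j)) tr2 hL.le
        (fun hh => (pw_ne _ (by rw [List.length_take]; omega) hh).elim) U2 (fun i => Sum.inl (o i)) a1
      have a3 := h2 tr2 U2 _ _ ψ hψ2 _ a2
      simp only [hψ1] at a3
      have e1 : Function.update w e ((w e).take j ++ (w e).drop j) = w := by
        rw [List.take_append_drop, Function.update_eq_self]
      rw [e1] at a3
      exact a3
  have hF1 : st (i + 1) = st (j + 1) := congrArg Prod.fst hF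
  have hF2 : LT n2 (pw ((w e).take (i + 1))) (pe ((w e).take (i + 1))) tr2 =
        LT n2 (pw ((w e).take (j + 1))) (pe ((w e).take (j + 1))) tr2 := congrArg Prod.snd hF
  rcases lt_or_gt_of_ne (fun h => hij (Fin.ext h) : (i : ℕ) ≠ j) with h | h
  · exact main (i + 1) (j + 1) (by omega) (by omega) (by omega) hF1 hF2
  · exact main (j + 1) (i + 1) (by omega) (by omega) (by omega) hF1.symm hF2.symm

theorem pf_U8 (h1 : U_u3_replace') (h2 : U_u4_mono) (h3 : U_u5_split) (h4 : U_u6_ws)
    (h5 : U_u7_fin) (_h6 : U_s5_lift) : U_u8_small := by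
  classical
  intro A Q1 Q2 V _ _ n1 n2 r tr1 tr2 U1 U2 hn E z hsat hnot
  obtain ⟨f, hf, μ, hμ1, hμ2⟩ := hsat
  let I : Type := {e : (Fin n1 × Q1) × (Fin n1 × Q1) // e ∈ f.1}
  let x : I → Fin n1 := fun e => e.1.1.1
  let y : I → Fin n1 := fun e => e.1.2.1
  have hw0 : ∀ e : I, ∃ w : List (A × Bool), Path E (μ (x e)) w (μ (y e)) ∧
      Run tr1 e.1.1.2 w e.1.2.2 := by
    intro e
    exact ((h4 (A := A) (I := I) (Q := Q1) x y (fun _ => [])).2.2.2 tr1 V E _ _ _ _).1
      (hμ1 e.1 e.2)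
  choose w0 hw1 hw2 using hw0
  let P : (I → List (A × Bool)) → Prop := fun w =>
    (∀ e : I, Run tr1 e.1.1.2 (w e) e.1.2.2) ∧
    ¬ USat tr2 U2 (canon (ws x y w (fun _ => True))) (fun i => cl _ (Sum.inl (f.2 i)))
  have hP0 : P w0 := by
    refine ⟨hw2, fun hs => hnot ?_⟩
    obtain ⟨φ, hφ1, hφ2⟩ := (h4 (A := A) (I := I) (Q := Q1) x y w0).2.2.1 V E μ hw1 ⟨⟨0, hn⟩⟩
    have := h2 tr2 U2 _ _ φ hφ2 _ hs
    simp only [hφ1, hμ2] at this
    exact this
  let tot : (I → List (A × Bool)) → ℕ := fun w => ∑ e, (w e).length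
  obtain ⟨w, hwP, hwmin⟩ := WellFounded.has_min (measure tot).wf {w | P w} ⟨w0, hP0⟩
  have hshort : ∀ e, (w e).length ≤ KT (Fintype.card Q1) n2 (Fintype.card Q2) := by
    intro e
    by_contra hlen
    push Not at hlen
    obtain ⟨v, hv1, hv2, hv3⟩ := u8_short h1 h2 h3 tr1 tr2 U2 x y f.2 w e e.1.1.2 e.1.2.2
      (hwP.1 e) hwP.2 hlen
    apply hwmin (Function.update w e v)
    · refine ⟨fun e' => ?_, hv3⟩
      by_cases he : e' = e
      · subst he
        rw [Function.update_self]
        exact hv2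
      · rw [Function.update_of_ne he]
        exact hwP.1 e'
    · show ∑ e', (Function.update w e v e').length < ∑ e', (w e').length
      apply Finset.sum_lt_sum
      · intro e' _
        by_cases he : e' = e
        · subst he
          rw [Function.update_self]
          exact hv1.le
        · rw [Function.update_of_ne he]
      · exact ⟨e, Finset.mem_univ _, by rw [Function.update_self]; exact hv1⟩
  obtain ⟨V', hV', E', ι, hcard, ⟨φ, hφ1, hφ2⟩, ⟨ψ, hψ1, hψ2⟩⟩ := h5 hn x y w
  refine ⟨V', hV', E', fun i => ι (f.2 i), ?_, ?_, ?_⟩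
  · refine hcard.trans ?_
    have hI : Fintype.card I ≤ (n1 * Fintype.card Q1) ^ 2 := by
      refine (Fintype.card_subtype_le _).trans ?_
      rw [Fintype.card_prod, Fintype.card_prod, Fintype.card_fin, sq]
    have hsum : ∑ e, ((w e).length + 1) ≤
        Fintype.card I * (KT (Fintype.card Q1) n2 (Fintype.card Q2) + 1) := by
      refine (Finset.sum_le_card_nsmul _ _ (KT (Fintype.card Q1) n2 (Fintype.card Q2) + 1)
        fun e _ => ?_).trans ?_
      · exact Nat.succ_le_succ (hshort e)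
      · rw [smul_eq_mul]
        rfl
    unfold SM
    exact Nat.add_le_add_left (hsum.trans (Nat.mul_le_mul_right _ hI)) _
  · have a1 : USat tr1 U1 (canon (ws x y w (fun _ => True)))
        (fun i => cl _ (Sum.inl (f.2 i))) := by
      refine ⟨f, hf, fun i => cl _ (Sum.inl i), fun e he => ?_, fun i => rfl⟩
      exact (h4 (A := A) (I := I) (Q := Q1) x y w).2.1 tr1 ⟨e, he⟩ _ _ (hwP.1 ⟨e, he⟩)
    have a2 := h2 tr1 U1 _ _ φ hφ2 _ a1
    simp only [hφ1] at a2
    exact a2
  · intro hs
    have a2 := h2 tr2 U2 _ _ ψ hψ2 _ hs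
    simp only [hψ1] at a2
    exact hwP.2 a2

end Pool.Agent.H76.SW8
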