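import Pool.Agent.H1.SW.CPA
import Pool.Agent.H1.SW.S5
import Pool.Agent.H12.SW.D8
import Pool.Agent.H12.SW.D9
import Pool.Agent.H17.SW.D0
import Pool.Agent.H17.SW.U7
import Pool.Agent.H18.SW.A0
import Pool.Agent.H18.SW.D2
import Pool.Agent.H19.SW.CAI
import Pool.Agent.H19.SW.CGC
import Pool.Agent.H19.SW.CLM
import Pool.Agent.H19.SW.CQP
import Pool.Agent.H20.SW.CPP
import Pool.Agent.H20.SW.U0
import Pool.Agent.H20.SW.W2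
import Pool.Agent.H21.SW.D4
import Pool.Agent.H21.SW.U5
import Pool.Agent.H22.SW.D6
import Pool.Agent.H3.STW.S6
import Pool.Agent.H3.STW.S7
import Pool.Agent.H3.SW.CWP
import Pool.Agent.H3.SW.CZP
import Pool.Agent.H31.SW.G2
import Pool.Agent.H31.SW.Q5
import Pool.Agent.H33.SW.G1
import Pool.Agent.H34.SW.D3
import Pool.Agent.H34.SW.E2
import Pool.Agent.H35.SW.A3
import Pool.Agent.H35.SW.CPQ
import Pool.Agent.H42.SW.Q0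
import Pool.Agent.H48.SW.CDC
import Pool.Agent.H48.SW.Q6
import Pool.Agent.H48.SW.T3
import Pool.Agent.H49.SW.A2
import Pool.Agent.H5.SW.A5
import Pool.Agent.H51.SW.CEX
import Pool.Agent.H53.SW.CRP
import Pool.Agent.H54.SW.D1
import Pool.Agent.H56.SW.CSY
import Pool.Agent.H56.SW.F4
import Pool.Agent.H56.SW.P1
import Pool.Agent.H56.SW.S10
import Pool.Agent.H56.SW.S4
import Pool.Agent.H56.SW.S9
import Pool.Agent.H56.SW.T1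
import Pool.Agent.H56.SW.W1
import Pool.Agent.H59.SW.CLP
import Pool.Agent.H59.SW.CUP
import Pool.Agent.H59.SW.EL2
import Pool.Agent.H6.SW.CPE
import Pool.Agent.H60.SW.CBC
import Pool.Agent.H60.SW.CFL
import Pool.Agent.H60.SW.CTI
import Pool.Agent.H60.SW.D5
import Pool.Agent.H60.SW.T2
import Pool.Agent.H65.SW.CPB
import Pool.Agent.H65.SW.Q23
import Pool.Agent.H65.SW.Q4
import Pool.Agent.H67.SW.CCI
import Pool.Agent.H67.SW.CSC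
import Pool.Agent.H67.SW.CTP
import Pool.Agent.H68.SW.F3A
import Pool.Agent.H68.SW.F5
import Pool.Agent.H69.SW.CRI
import Pool.Agent.H69.SW.E1
import Pool.Agent.H69.SW.S3
import Pool.Agent.H69.SW.U3
import Pool.Agent.H70.SW.CSP
import Pool.Agent.H70.SW.S8
import Pool.Agent.H74.SW.D7
import Pool.Agent.H76.SW.A1
import Pool.Agent.H76.SW.EL1
import Pool.Agent.H76.SW.U8
import Pool.Agent.H77.SW.Q1
import Pool.Agent.H81.SW.T4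
import Pool.Agent.H81.SW.U4
import Pool.Agent.H86.STW.A4
import Pool.Agent.H86.STW.F3
import Pool.Agent.H86.STW.U6
import Pool.Agent.H87.SW.G3
import Pool.Agent.H87.SW.G4
import Pool.Agent.H90.SW.F12
import Pool.Agent.H90.SW.U12
import Pool.Agent.H91.SW.CDP
import Pool.Agent.H91.SW.CIN
import Pool.Agent.H92.SW.S1
import Pool.Agent.H92.SW.S2

/-!
The statements of the board, composed.
-/

namespace Pool.Agent.H76.SWAll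

theorem ok_U_q0_eq : Pool.Agent.H76.SW.U_q0_eq :=
  Pool.Agent.H42.SW.pf_Q0 

theorem ok_U_q5_unfold : Pool.Agent.H76.SW.U_q5_unfold :=
  Pool.Agent.H31.SW.pf_Q5 ok_U_q0_eq

theorem ok_U_q1_joint : Pool.Agent.H76.SW.U_q1_joint :=
  Pool.Agent.H77.SW.pf_Q1 

theorem ok_V_PB : Pool.Agent.H76.SW.V_PB :=
  Pool.Agent.H65.SW.pf_CPB 

theorem ok_U_q2_fact : Pool.Agent.H76.SW.U_q2_fact :=
  Pool.Agent.H65.SW.pf_Q2 

theorem ok_U_q3_letter : Pool.Agent.H76.SW.U_q3_letter :=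
  Pool.Agent.H65.SW.pf_Q3 

theorem ok_U_s7_node : Pool.Agent.H76.SW.U_s7_node :=
  Pool.Agent.H3.STW.pf_S7 

theorem ok_U_s3_id : Pool.Agent.H76.SW.U_s3_id :=
  Pool.Agent.H69.SW.pf_S3 

theorem ok_U_s1_symm : Pool.Agent.H76.SW.U_s1_symm :=
  Pool.Agent.H92.SW.pf_S1 

theorem ok_U_s2_fin : Pool.Agent.H76.SW.U_s2_fin :=
  Pool.Agent.H92.SW.pf_S2 

theorem ok_U_s5_lift : Pool.Agent.H76.SW.U_s5_lift :=
  Pool.Agent.H1.SW.pf_S5 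

theorem ok_U_s4_child : Pool.Agent.H76.SW.U_s4_child :=
  Pool.Agent.H56.SW.pf_S4 

theorem ok_U_s6_sat : Pool.Agent.H76.SW.U_s6_sat :=
  Pool.Agent.H3.STW.pf_S6 ok_U_s4_child ok_U_s7_node

theorem ok_V_LM : Pool.Agent.H76.SW.V_LM :=
  Pool.Agent.H19.SW.pf_CLM 

theorem ok_U_q6_mono : Pool.Agent.H76.SW.U_q6_mono :=
  Pool.Agent.H48.SW.pf_Q6 

theorem ok_V_GC : Pool.Agent.H76.SW.V_GC :=
  Pool.Agent.H19.SW.pf_CGC ok_V_LM ok_U_q6_mono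

theorem ok_U_s9_exit : Pool.Agent.H76.SW.U_s9_exit :=
  Pool.Agent.H56.SW.pf_S9 

theorem ok_U_f1_leaf : Pool.Agent.H76.SW.U_f1_leaf :=
  Pool.Agent.H90.SW.pf_F1 

theorem ok_U_s8_hom : Pool.Agent.H76.SW.U_s8_hom :=
  Pool.Agent.H70.SW.pf_S8 

theorem ok_V_PA : Pool.Agent.H76.SW.V_PA :=
  Pool.Agent.H1.SW.pf_CPA 

theorem ok_U_f2_root : Pool.Agent.H76.SW.U_f2_root :=
  Pool.Agent.H90.SW.pf_F2 

theorem ok_U_f3a_down : Pool.Agent.H76.SW.U_f3a_down :=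
  Pool.Agent.H68.SW.pf_F3A 

theorem ok_U_f3_chain : Pool.Agent.H76.SW.U_f3_chain :=
  Pool.Agent.H86.STW.pf_F3 ok_U_f3a_down

theorem ok_U_f4_bound : Pool.Agent.H76.SW.U_f4_bound :=
  Pool.Agent.H56.SW.pf_F4 

theorem ok_U_f5_min : Pool.Agent.H76.SW.U_f5_min :=
  Pool.Agent.H68.SW.pf_F5 ok_U_f1_leaf ok_U_f2_root ok_U_f3_chain ok_U_f4_bound

theorem ok_U_p1_prim : Pool.Agent.H76.SW.U_p1_prim :=
  Pool.Agent.H56.SW.pf_P1 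

theorem ok_U_d0_tree : Pool.Agent.H76.SW.U_d0_tree :=
  Pool.Agent.H17.SW.pf_D0 

theorem ok_U_d3_unroot : Pool.Agent.H76.SW.U_d3_unroot :=
  Pool.Agent.H34.SW.pf_D3 ok_U_d0_tree

theorem ok_U_d2_normal : Pool.Agent.H76.SW.U_d2_normal :=
  Pool.Agent.H18.SW.pf_D2 

theorem ok_U_d9_mono : Pool.Agent.H76.SW.U_d9_mono :=
  Pool.Agent.H12.SW.pf_D9 

theorem ok_U_d4_width : Pool.Agent.H76.SW.U_d4_width :=
  Pool.Agent.H21.SW.pf_D4 ok_U_d3_unroot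

theorem ok_U_d7_path : Pool.Agent.H76.SW.U_d7_path :=
  Pool.Agent.H74.SW.pf_D7 ok_U_d3_unroot

theorem ok_U_d6_small : Pool.Agent.H76.SW.U_d6_small :=
  Pool.Agent.H22.SW.pf_D6 

theorem ok_U_a0_mono : Pool.Agent.H76.SW.U_a0_mono :=
  Pool.Agent.H18.SW.pf_A0 ok_U_q0_eq

theorem ok_U_d1_root : Pool.Agent.H76.SW.U_d1_root :=
  Pool.Agent.H54.SW.pf_D1 

theorem ok_U_d8_forest : Pool.Agent.H76.SW.U_d8_forest :=
  Pool.Agent.H12.SW.pf_D8 ok_U_d1_root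

theorem ok_U_s10_torso : Pool.Agent.H76.SW.U_s10_torso :=
  Pool.Agent.H56.SW.pf_S10 

theorem ok_U_d5_start : Pool.Agent.H76.SW.U_d5_start :=
  Pool.Agent.H60.SW.pf_D5 ok_U_d1_root ok_U_d2_normal

theorem ok_U_q4_body : Pool.Agent.H76.SW.U_q4_body :=
  Pool.Agent.H65.SW.pf_Q4 ok_U_q2_fact ok_U_q3_letter ok_U_d9_mono

theorem ok_U_a1_flat : Pool.Agent.H76.SW.U_a1_flat :=
  Pool.Agent.H76.SW.pf_A1 ok_U_s5_lift ok_U_s7_node ok_U_s9_exit ok_U_s10_torso ok_U_d4_width ok_U_d5_start ok_U_f5_min ok_U_q4_body ok_U_s4_child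

theorem ok_U_a4_trivial : Pool.Agent.H76.SW.U_a4_trivial :=
  Pool.Agent.H86.STW.pf_A4 ok_U_d6_small

theorem ok_U_a5_main : Pool.Agent.H76.SW.U_a5_main :=
  Pool.Agent.H5.SW.pf_A5 ok_U_s4_child ok_U_a0_mono ok_U_a1_flat ok_U_a4_trivial ok_U_q5_unfold

theorem ok_U_t1_top : Pool.Agent.H76.SW.U_t1_top :=
  Pool.Agent.H56.SW.pf_T1 ok_U_s1_symm ok_U_s3_id ok_U_s4_child ok_U_s5_lift ok_U_a0_mono ok_U_a1_flat ok_U_a5_main ok_U_q5_unfold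

theorem ok_U_a2_descend : Pool.Agent.H76.SW.U_a2_descend :=
  Pool.Agent.H49.SW.pf_A2 ok_U_s4_child ok_U_s9_exit

theorem ok_U_a3_wrap2 : Pool.Agent.H76.SW.U_a3_wrap2 :=
  Pool.Agent.H35.SW.pf_A3 ok_U_s5_lift ok_U_q4_body ok_U_q5_unfold ok_U_d3_unroot ok_U_d9_mono

theorem ok_U_w2_wrap : Pool.Agent.H76.SW.U_w2_wrap :=
  Pool.Agent.H20.SW.pf_W2 ok_U_a2_descend ok_U_a3_wrap2 ok_U_a0_mono

theorem ok_U_g4_level : Pool.Agent.H76.SW.U_g4_level :=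
  Pool.Agent.H87.SW.pf_G4 ok_U_s7_node ok_U_s9_exit ok_U_s10_torso ok_U_d8_forest

theorem ok_U_u0_pad : Pool.Agent.H76.SW.U_u0_pad :=
  Pool.Agent.H20.SW.pf_U0 ok_U_q0_eq

theorem ok_U_u1_simple : Pool.Agent.H76.SW.U_u1_simple :=
  Pool.Agent.H90.SW.pf_U1 ok_U_q0_eq ok_U_q1_joint ok_U_u0_pad

theorem ok_U_u2_simple : Pool.Agent.H76.SW.U_u2_simple :=
  Pool.Agent.H90.SW.pf_U2 ok_U_q0_eq ok_U_q1_joint ok_U_u0_pad ok_U_u1_simple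

theorem ok_U_u4_mono : Pool.Agent.H76.SW.U_u4_mono :=
  Pool.Agent.H81.SW.pf_U4 

theorem ok_U_u3_replacep : Pool.Agent.H69.SW.U_u3_replace' :=
  Pool.Agent.H69.SW.pf_U3 ok_U_s5_lift

theorem ok_U_u5_split : Pool.Agent.H76.SW.U_u5_split :=
  Pool.Agent.H21.SW.pf_U5 

theorem ok_U_u6_ws : Pool.Agent.H76.SW.U_u6_ws :=
  Pool.Agent.H86.STW.pf_U6 

theorem ok_U_u7_fin : Pool.Agent.H76.SW.U_u7_fin :=
  Pool.Agent.H17.SW.pf_U7 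

theorem ok_U_u8_small : Pool.Agent.H76.SW.U_u8_small :=
  Pool.Agent.H76.SW8.pf_U8 ok_U_u3_replacep ok_U_u4_mono ok_U_u5_split ok_U_u6_ws ok_U_u7_fin ok_U_s5_lift

theorem ok_U_t4_small : Pool.Agent.H76.SW.U_t4_small :=
  Pool.Agent.H81.SW.pf_T4 ok_U_u2_simple ok_U_u8_small

theorem ok_U_e1_exp : Pool.Agent.H76.SW.U_e1_exp :=
  Pool.Agent.H69.SW.pf_E1 ok_U_d7_path ok_U_d9_mono

theorem ok_U_e2_top : Pool.Agent.H76.SW.U_e2_top :=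
  Pool.Agent.H34.SW.pf_E2 ok_U_e1_exp ok_U_d6_small ok_U_d7_path ok_U_d9_mono

theorem ok_U_g1_loop : Pool.Agent.H76.SW.U_g1_loop :=
  Pool.Agent.H33.SW.pf_G1 ok_U_s5_lift ok_U_q4_body ok_U_q5_unfold ok_U_d7_path ok_U_d9_mono

theorem ok_U_g2_ladder : Pool.Agent.H76.SW.U_g2_ladder :=
  Pool.Agent.H31.SW.pf_G2 ok_U_f3a_down

theorem ok_U_g3_realise : Pool.Agent.H76.SW.U_g3_realise :=
  Pool.Agent.H87.SW.pf_G3 ok_U_s5_lift ok_U_q4_body ok_U_q5_unfold ok_U_d7_path ok_U_d9_mono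

theorem ok_U_w1_wrap : Pool.Agent.H76.SW.U_w1_wrap :=
  Pool.Agent.H56.SW.pf_W1 ok_U_s4_child ok_U_s9_exit ok_U_a0_mono ok_U_g1_loop ok_U_g2_ladder ok_U_g3_realise ok_U_g4_level

theorem ok_U_t2_approx : Pool.Agent.H76.SW.U_t2_approx :=
  Pool.Agent.H60.SW.pf_T2 ok_U_e2_top ok_U_s1_symm ok_U_s2_fin ok_U_s3_id ok_U_s4_child ok_U_s5_lift ok_U_s6_sat ok_U_s7_node ok_U_s8_hom ok_U_q6_mono ok_U_w1_wrap ok_U_w2_wrap ok_U_t1_top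

theorem ok_V_RI : Pool.Agent.H76.SW.V_RI :=
  Pool.Agent.H69.SW.pf_CRI 

theorem ok_V_SC : Pool.Agent.H76.SW.V_SC :=
  Pool.Agent.H67.SW.pf_CSC ok_V_RI

theorem ok_V_PE : Pool.Agent.H76.SW.V_PE :=
  Pool.Agent.H6.SW.pf_CPE ok_V_SC ok_V_PA ok_V_PB

theorem ok_V_SY : Pool.Agent.H76.SW.V_SY :=
  Pool.Agent.H56.SW.pf_CSY ok_V_RI

theorem ok_U_t3_max : Pool.Agent.H76.SW.U_t3_max :=
  Pool.Agent.H48.SW.pf_T3 ok_U_t2_approx ok_U_u2_simple ok_U_d6_small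

theorem ok_U_el2 : Pool.Agent.H76.SW.U_el2 :=
  Pool.Agent.H59.SW.pf_EL2 

theorem ok_U_el1 : Pool.Agent.H76.SW.U_el1 :=
  Pool.Agent.H76.SWE.pf_EL1 

theorem ok_V_LP : Pool.Agent.H76.SW.V_LP :=
  Pool.Agent.H59.SW.pf_CLP 

theorem ok_V_TP : Pool.Agent.H76.SW.V_TP :=
  Pool.Agent.H67.SW.pf_CTP ok_V_LP

theorem ok_V_WP : Pool.Agent.H76.SW.V_WP :=
  Pool.Agent.H3.SW.pf_CWP ok_V_TP

theorem ok_V_ZP : Pool.Agent.H76.SW.V_ZP :=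
  Pool.Agent.H3.SW.pf_CZP 

theorem ok_V_UP : Pool.Agent.H76.SW.V_UP :=
  Pool.Agent.H59.SW.pf_CUP ok_V_LP

theorem ok_V_RP : Pool.Agent.H76.SW.V_RP :=
  Pool.Agent.H53.SW.pf_CRP 

theorem ok_V_SP : Pool.Agent.H76.SW.V_SP :=
  Pool.Agent.H70.SW.pf_CSP ok_V_LP ok_V_RP

theorem ok_V_PP : Pool.Agent.H76.SW.V_PP :=
  Pool.Agent.H20.SW.pf_CPP ok_V_SP

theorem ok_V_DP : Pool.Agent.H76.SW.V_DP :=
  Pool.Agent.H91.SW.pf_CDP ok_V_LP ok_V_SP ok_V_PP ok_V_WP ok_V_UP ok_V_ZP ok_U_p1_prim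

theorem ok_V_TI : Pool.Agent.H76.SW.V_TI :=
  Pool.Agent.H60.SW.pf_CTI ok_V_LM ok_U_d1_root ok_U_d2_normal ok_U_d3_unroot

theorem ok_V_AI : Pool.Agent.H76.SW.V_AI :=
  Pool.Agent.H19.SW.pf_CAI ok_V_RI

theorem ok_V_CI : Pool.Agent.H76.SW.V_CI :=
  Pool.Agent.H67.SW.pf_CCI ok_V_LM ok_V_AI

theorem ok_V_BC : Pool.Agent.H76.SW.V_BC :=
  Pool.Agent.H60.SW.pf_CBC ok_V_LM ok_V_RI ok_V_AI ok_V_CI ok_V_SY ok_V_TI

theorem ok_V_FL : Pool.Agent.H76.SW.V_FL :=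
  Pool.Agent.H60.SW.pf_CFL ok_V_BC ok_V_PA ok_V_PB ok_V_SY ok_V_TI ok_V_LM ok_V_AI ok_V_CI

theorem ok_V_IN : Pool.Agent.H76.SW.V_IN :=
  Pool.Agent.H91.SW.pf_CIN ok_V_CI

theorem ok_V_EX : Pool.Agent.H76.SW.V_EX :=
  Pool.Agent.H51.SW.pf_CEX 

theorem ok_V_QP : Pool.Agent.H76.SW.V_QP :=
  Pool.Agent.H19.SW.pf_CQP ok_V_FL ok_V_BC ok_V_PA ok_V_PB

theorem ok_V_PQ : Pool.Agent.H76.SW.V_PQ :=
  Pool.Agent.H35.SW.pf_CPQ ok_V_LM ok_V_AI ok_V_CI ok_V_PB ok_V_PE ok_V_PA ok_V_TI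

theorem ok_V_DC : Pool.Agent.H76.SW.V_DC :=
  Pool.Agent.H48.SW.pf_CDC ok_V_PQ ok_V_QP ok_V_IN ok_V_GC ok_V_LM ok_U_t3_max ok_U_t4_small

end Pool.Agent.H76.SWAll
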