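import Pool.Agent.H76.SW.T

/-!
Codes of queries by lists of natural numbers, and their evaluation on coded graphs.
-/

namespace Pool.Agent.H76.SW

open Classical

/-- Transition `((s, (l, b)), s')` from the state `s` to the state `s'` by the letter number `l`,
forwards iff `b = true`. -/
abbrev TrC := (ℕ × (ℕ × Bool)) × ℕ

/-- Code of an automaton: number of states, start states, accepting states, transitions. -/
abbrev AutC := (ℕ × (List ℕ × List ℕ)) × List TrC

/-- Code of an atom: source variable, target variable, automaton. -/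
abbrev AtC := (ℕ × ℕ) × AutC

/-- Code of a conjunctive query: number of variables, output variables, atoms. -/
abbrev CqC := (ℕ × List ℕ) × List AtC

/-- Code of a finite union. -/
abbrev UqC := List CqC

/-- Code of a graph: edges `((u, l), v)`. -/
abbrev GrC := List ((ℕ × ℕ) × ℕ)

/-- `x` is a code of the automaton `M`; `nm` gives the numbers of the letters. -/
structure CodesAut {Λ : Type} {st : ℕ} (nm : Λ → ℕ) (M : NFA (Λ × Bool) (Fin st)) (x : AutC) :
    Prop where
  st : x.1.1 = st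
  start : ∀ n, n ∈ x.1.2.1 ↔ ∃ s ∈ M.start, (s : ℕ) = n
  accept : ∀ n, n ∈ x.1.2.2 ↔ ∃ s ∈ M.accept, (s : ℕ) = n
  trans : ∀ y : TrC, y ∈ x.2 ↔
    ∃ s l s', s' ∈ M.step s l ∧ y = (((s : ℕ), (nm l.1, l.2)), (s' : ℕ))

/-- Code of a body. -/
def CodesBody {A : Type} {c : ℕ} (nm : A ⊕ Fin c → ℕ) (b : Body A c) (n : ℕ) (ats : List AtC) :
    Prop :=
  n = b.n ∧ ats.length = b.m ∧ ∀ i : Fin b.m, ∃ x : AutC,
    ats[(i : ℕ)]? = some (((b.src i : ℕ), (b.tgt i : ℕ)), x) ∧ CodesAut nm (b.aut i) x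

/-- Numbers of the letters: the letters of the alphabet first, then the further symbols. -/
def nmA (a c : ℕ) : Fin a ⊕ Fin c → ℕ := Sum.elim (fun l => (l : ℕ)) (fun j => a + (j : ℕ))

/-- `x` is a code of the C2RPQ `t`. -/
def CodesCRQ {a r : ℕ} (t : CRQ (Fin a) r) (x : CqC) : Prop :=
  CodesBody (nmA a t.c) t.b x.1.1 x.2 ∧ x.1.2 = List.ofFn fun i => (t.out i : ℕ)

/-- `x` is a code of the union `Γ` of C2RPQs. -/
def Codes {a r : ℕ} (Γ : Query (Fin a) r) (x : UqC) : Prop := List.Forall₂ CodesCRQ Γ x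

/-- All lists of length at most `n` over `L`. -/
def lists {α : Type} (L : List α) : ℕ → List (List α)
  | 0 => [[]]
  | n + 1 => [] :: L.flatMap fun x => (lists L n).map (List.cons x)

/-- Steps of the product of a coded graph and a list of transitions. -/
def PStep (E : GrC) (T : List TrC) (x y : ℕ × ℕ) : Prop :=
  ∃ l b, ((x.2, (l, b)), y.2) ∈ T ∧
    ((b = true ∧ ((x.1, l), y.1) ∈ E) ∨ (b = false ∧ ((y.1, l), x.1) ∈ E))

def succs (E : GrC) (T : List TrC) (x : ℕ × ℕ) : List (ℕ × ℕ) :=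
  T.flatMap fun t => E.flatMap fun e =>
    if t.1.1 = x.2 ∧ t.1.2.1 = e.1.2 then
      (if t.1.2.2 = true then (if e.1.1 = x.1 then [(e.2, t.2)] else [])
        else (if e.2 = x.1 then [(e.1.1, t.2)] else []))
    else []

/-- Everything reachable from `L`. -/
def reachL (E : GrC) (T : List TrC) (L : List (ℕ × ℕ)) : List (ℕ × ℕ) :=
  (fun L => L ++ L.flatMap (succs E T))^[2 * E.length * T.length + 1] L

def AtSat (E : GrC) (x : AutC) (u v : ℕ) : Prop :=
  ∃ s ∈ x.1.2.1, ∃ s' ∈ x.1.2.2, (v, s') ∈ reachL E x.2 [(u, s)]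

def CqSat (n : ℕ) (E : GrC) (q : CqC) (z : List ℕ) : Prop :=
  ∃ μ ∈ lists (List.range n) q.1.1, μ.length = q.1.1 ∧
    (∀ t ∈ q.2, AtSat E t.2 (μ.getD t.1.1 0) (μ.getD t.1.2 0)) ∧
    q.1.2.map (fun i => μ.getD i 0) = z

def UqSat (n : ℕ) (E : GrC) (Q : UqC) (z : List ℕ) : Prop := ∃ q ∈ Q, CqSat n E q z

/-- Add the binary relation defined by `Q` as letter number `l`. -/
noncomputable def addRel (n : ℕ) (E : GrC) (l : ℕ) (Q : UqC) : GrC :=
  E ++ (List.range n).flatMap fun u => (List.range n).flatMap fun v =>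
    if UqSat n E Q [u, v] then [((u, l), v)] else []

/-- Evaluate the definitions one after the other. -/
noncomputable def progE (n a : ℕ) (E : GrC) (defs : List UqC) : GrC :=
  (defs.foldl (fun x Q => (addRel n x.1 x.2 Q, x.2 + 1)) (E, a)).1

/-- Programs: definitions of further symbols and the main query. -/
abbrev PrC := List UqC × UqC

def PrSat (n a : ℕ) (E : GrC) (P : PrC) (z : List ℕ) : Prop :=
  UqSat n (progE n a E P.1) P.2 z

/-- The tree-width of the graph on `0, ..., n - 1` with the edges `adj` is at most `k`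
(nodes `x` of the decomposition are pairs: parent, bag). -/
def TwC (k n : ℕ) (adj : List (ℕ × ℕ)) : Prop :=
  ∃ D ∈ lists ((List.range (n + 2)).flatMap fun p =>
      (lists (List.range n) (k + 1)).map fun B => (p, B)) (n + 1),
    (∀ v ∈ List.range n, ∃ d ∈ D, v ∈ d.2) ∧
    (∀ e ∈ adj, ∃ d ∈ D, e.1 ∈ d.2 ∧ e.2 ∈ d.2) ∧
    ∀ v ∈ List.range n, ∃ t ∈ List.range D.length, v ∈ (D.getD t (0, [])).2 ∧
      ∀ x ∈ List.range D.length, v ∈ (D.getD x (0, [])).2 → x = t ∨
        ((D.getD x (0, [])).1 < x ∧ v ∈ (D.getD (D.getD x (0, [])).1 (0, [])).2)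

def WfAut (L : ℕ) (x : AutC) : Prop :=
  (∀ s ∈ x.1.2.1, s < x.1.1) ∧ (∀ s ∈ x.1.2.2, s < x.1.1) ∧
    ∀ t ∈ x.2, t.1.1 < x.1.1 ∧ t.1.2.1 < L ∧ t.2 < x.1.1

/-- Well formed query with letters `< L`, `r` outputs and tree-width `≤ k`. -/
def WfCq (L r k : ℕ) (q : CqC) : Prop :=
  q.1.2.length = r ∧ (∀ o ∈ q.1.2, o < q.1.1) ∧
    (∀ t ∈ q.2, t.1.1 < q.1.1 ∧ t.1.2 < q.1.1 ∧ WfAut L t.2) ∧ TwC k q.1.1 (q.2.map Prod.fst)

def WfUq (L r k : ℕ) (Q : UqC) : Prop := ∀ q ∈ Q, WfCq L r k q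

def WfPr (a r k : ℕ) (P : PrC) : Prop :=
  (∀ i ∈ List.range P.1.length, WfUq (a + i) 2 k (P.1.getD i [])) ∧
    WfUq (a + P.1.length) r k P.2

/-- The code of the automaton for the single letter `l`. -/
def symC (l : ℕ) : AutC := ((2, ([0], [1])), [((0, (l, true)), 1)])

/-- The atom has only letters `< a` or is a single further symbol. -/
def SiAut (a : ℕ) (x : AutC) : Prop :=
  (∀ t ∈ x.2, t.1.2.1 < a) ∨ ∃ t ∈ x.2, x = symC t.1.2.1

def SiUq (a : ℕ) (Q : UqC) : Prop := ∀ q ∈ Q, ∀ t ∈ q.2, SiAut a t.2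

def SiPr (a : ℕ) (P : PrC) : Prop := (∀ Q ∈ P.1, SiUq a Q) ∧ SiUq a P.2

/-- All transitions, automata, atoms, queries, unions, programs with numbers `< M` and lists of
length at most `M` (for transitions: at most the number of all of them). -/
def trU (M : ℕ) : List TrC :=
  (List.range M).flatMap fun s => (List.range M).flatMap fun l => [true, false].flatMap fun b =>
    (List.range M).map fun s' => ((s, (l, b)), s')

def autU (M : ℕ) : List AutC :=
  (List.range M).flatMap fun n => (lists (List.range M) M).flatMap fun i =>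
    (lists (List.range M) M).flatMap fun f => (lists (trU M) (trU M).length).map fun t =>
      ((n, (i, f)), t)

def atU (M : ℕ) : List AtC :=
  (List.range M).flatMap fun x => (List.range M).flatMap fun y =>
    (autU M).map fun t => ((x, y), t)

def cqU (M : ℕ) : List CqC :=
  (List.range M).flatMap fun n => (lists (List.range M) M).flatMap fun o =>
    (lists (atU M) M).map fun t => ((n, o), t)

def uqU (M : ℕ) : List UqC := lists (cqU M) M

def prU (M : ℕ) : List PrC :=
  (lists (uqU M) M).flatMap fun D => (uqU M).map fun Q => (D, Q)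

/-- All graphs on `0, ..., n - 1` with letters `< a`. -/
def egU (n a : ℕ) : GrC :=
  (List.range n).flatMap fun u => (List.range a).flatMap fun l =>
    (List.range n).map fun v => ((u, l), v)

def grU (n a : ℕ) : List GrC := lists (egU n a) (egU n a).length

/-- The graph is well formed. -/
def GrOK (n a : ℕ) (E : GrC) : Prop := ∀ x ∈ E, x.1.1 < n ∧ x.1.2 < a ∧ x.2 < n

/-- The relation of a coded graph. -/
def toRel (n a : ℕ) (E : GrC) : Fin n → Fin a → Fin n → Prop :=
  fun u l v => (((u : ℕ), (l : ℕ)), (v : ℕ)) ∈ E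

/-- Size of a code. -/
def szC (x : UqC) : ℕ := (x.map fun q => 1 + q.1.1 + q.2.length + (q.2.map fun t => t.2.1.1).sum).sum

/-- Bound for the size of the query of a program. -/
def SzB (M : ℕ) : ℕ :=
  M * (1 + 3 * M + M ^ 2 + (1 + M + M * (1 + 3 * M + M ^ 2)) * (M + 2) ^ M)

def MB (a k r s : ℕ) : ℕ := a + (1 + BB k r (2 ^ s) s) + r + 2

/-- Bound for the graphs. -/
def CB (a k r s : ℕ) : ℕ :=
  SM (2 ^ s) s (2 ^ SzB (MB a k r s)) (SzB (MB a k r s)) +
    SM (2 ^ SzB (MB a k r s)) (SzB (MB a k r s)) (2 ^ s) s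

/-- The decision procedure. -/
def Dec (a k r : ℕ) (x : UqC) : Prop :=
  ∃ P ∈ prU (MB a k r (szC x)), (WfPr a r k P ∧ SiPr a P) ∧
    ∀ n ∈ List.range (CB a k r (szC x) + 1), ∀ E ∈ grU n a, ∀ z ∈ lists (List.range n) r,
      z.length = r → (UqSat n E x z ↔ PrSat n a E P z)

end Pool.Agent.H76.SW
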