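import Pool.Agent.H76.SW.CDefs

/-!
Statements about codes.
-/

namespace Pool.Agent.H76.SW

open Relation

set_option linter.unusedVariables false

/-! ### primitive recursion -/

def V_LP : Prop :=
  ∀ {α : Type} [Primcodable α], Primrec₂ (fun (L : List α) (n : ℕ) => lists L n)

def V_RP : Prop :=
  Primrec fun p : (GrC × List TrC) × List (ℕ × ℕ) => reachL p.1.1 p.1.2 p.2

def V_SP : Prop :=
  PrimrecPred fun p : (ℕ × GrC) × (UqC × List ℕ) => UqSat p.1.1 p.1.2 p.2.1 p.2.2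

def V_PP : Prop :=
  ∀ a : ℕ, PrimrecPred fun p : (ℕ × GrC) × (PrC × List ℕ) => PrSat p.1.1 a p.1.2 p.2.1 p.2.2

def V_TP : Prop :=
  ∀ k : ℕ, PrimrecPred fun p : ℕ × List (ℕ × ℕ) => TwC k p.1 p.2

def V_WP : Prop :=
  ∀ a r k : ℕ, PrimrecPred fun P : PrC => WfPr a r k P ∧ SiPr a P

def V_UP : Prop :=
  Primrec prU ∧ ∀ a : ℕ, Primrec (fun n => grU n a)

def V_ZP : Prop :=
  Primrec szC ∧ Primrec SzB

def V_DP : Prop :=
  ∀ a k r : ℕ, PrimrecPred (Dec a k r)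

/-! ### correctness of the evaluation -/

def V_LM : Prop :=
  ∀ {α : Type} (L : List α) (n : ℕ) (l : List α),
    l ∈ lists L n ↔ l.length ≤ n ∧ ∀ x ∈ l, x ∈ L

def V_RI : Prop :=
  ∀ (E : GrC) (T : List TrC) (x y : ℕ × ℕ),
    y ∈ reachL E T [x] ↔ ReflTransGen (PStep E T) x y

def V_AI : Prop :=
  ∀ {Λ : Type} {st n : ℕ} (nm : Λ → ℕ) (M : NFA (Λ × Bool) (Fin st)) (x : AutC)
    (hx : CodesAut nm M x) (F : Fin n → Λ → Fin n → Prop) (E : GrC)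
    (hE : ∀ (u : Fin n) (l : Λ) (v : Fin n), (((u : ℕ), nm l), (v : ℕ)) ∈ E ↔ F u l v)
    (hb : ∀ e ∈ E, e.1.1 < n ∧ e.2 < n) (u v : Fin n),
    AtSat E x u v ↔ ∃ w ∈ M.accepts, Path F u w v

def V_SY : Prop :=
  ∀ (E : GrC) (l u v : ℕ), AtSat E (symC l) u v ↔ ((u, l), v) ∈ E

/-- Only the edges with letters of the query matter. -/
def V_SC : Prop :=
  ∀ (n L : ℕ) (E E' : GrC) (hE : ∀ e : (ℕ × ℕ) × ℕ, e.1.2 < L → (e ∈ E ↔ e ∈ E')) (Q : UqC)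
    (hQ : ∀ q ∈ Q, ∀ t ∈ q.2, ∀ y ∈ t.2.2, y.1.2.1 < L) (z : List ℕ),
    UqSat n E Q z ↔ UqSat n E' Q z

def V_CI : Prop :=
  ∀ {A : Type} {c n r : ℕ} (nm : A ⊕ Fin c → ℕ) (b : Body A c) (q : CqC)
    (hq : CodesBody nm b q.1.1 q.2) (out : Fin r → Fin b.n)
    (ho : q.1.2 = List.ofFn fun i => (out i : ℕ)) (E0 : Fin n → A → Fin n → Prop)
    (R : Fin c → Fin n → Fin n → Prop) (E : GrC)
    (hE : ∀ (u : Fin n) (l : A ⊕ Fin c) (v : Fin n),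
      (((u : ℕ), nm l), (v : ℕ)) ∈ E ↔ ext E0 R u l v)
    (hb : ∀ e ∈ E, e.1.1 < n ∧ e.2 < n) (z : Fin r → Fin n),
    CqSat n E q (List.ofFn fun i => (z i : ℕ)) ↔
      ∃ μ : Fin b.n → Fin n, b.Holds E0 R μ ∧ ∀ i, μ (out i) = z i

/-- Bounds for the edges. -/
def V_PB : Prop :=
  ∀ (n a : ℕ) (E : GrC) (hE : GrOK n a E) (defs : List UqC),
    ∀ e ∈ progE n a E defs, e.1.1 < n ∧ e.2 < n ∧ e.1.2 < a + defs.length

/-- Evaluation of definitions. -/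
def V_PE : Prop :=
  ∀ (n a : ℕ) (E : GrC) (hE : GrOK n a E) (defs : List UqC)
    (hwf : ∀ i < defs.length, ∀ q ∈ defs.getD i [], ∀ t ∈ q.2, ∀ y ∈ t.2.2, y.1.2.1 < a + i),
    ∀ i < defs.length, ∀ u v : ℕ, ((u, a + i), v) ∈ progE n a E defs ↔
      u < n ∧ v < n ∧ UqSat n (progE n a E defs) (defs.getD i []) [u, v]

/-- More definitions do not change the earlier symbols. -/
def V_PA : Prop :=
  ∀ (n a : ℕ) (E : GrC) (pre new : List UqC) (e : (ℕ × ℕ) × ℕ), e.1.2 < a + pre.length →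
    (e ∈ progE n a E (pre ++ new) ↔ e ∈ progE n a E pre)

def V_TI : Prop :=
  ∀ (k n : ℕ) (G : SimpleGraph (Fin n)) (adj : List (ℕ × ℕ))
    (h1 : ∀ u v : Fin n, G.Adj u v → ((u : ℕ), (v : ℕ)) ∈ adj ∨ ((v : ℕ), (u : ℕ)) ∈ adj)
    (h2 : ∀ e ∈ adj, ∃ u v : Fin n, e = ((u : ℕ), (v : ℕ)) ∧ (u = v ∨ G.Adj u v)),
    TwC k n adj ↔ TreeWidthLE G k

/-! ### programs and queries -/

/-- From programs to queries. -/
def V_PQ : Prop :=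
  ∀ (a r k M : ℕ) (P : PrC), P ∈ prU M → WfPr a r k P → SiPr a P →
    ∃ Ω : Query (Fin a) r, Ω.Width k ∧ Ω.Simple ∧ Ω.size ≤ SzB M ∧
      ∀ (n : ℕ) (E : GrC), GrOK n a E → ∀ z : Fin r → Fin n,
        (PrSat n a E P (List.ofFn fun i => (z i : ℕ)) ↔ Ω.Sat (toRel n a E) z)

/-- Codes of simple bodies: the symbol `j` gets the number `σ j`. -/
def V_BC : Prop :=
  ∀ (a c k L M : ℕ) (b : Body (Fin a) c) (hs : b.Simple) (hw : TreeWidthLE b.graph k)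
    (σ : Fin c → ℕ) (hσ : ∀ j, a ≤ σ j ∧ σ j < L) (hM : a + b.size + 2 ≤ M) (hL : L ≤ M)
    (haL : a ≤ L) (r : ℕ) (hr : r ≤ M) (out : Fin r → Fin b.n),
    ∃ q ∈ cqU M, WfCq L r k q ∧ (∀ t ∈ q.2, SiAut a t.2) ∧
      ∀ (n : ℕ) (E : GrC) (E0 : Fin n → Fin a → Fin n → Prop) (R : Fin c → Fin n → Fin n → Prop)
        (hE : ∀ (u : Fin n) (l : Fin a) (v : Fin n),
          (((u : ℕ), (l : ℕ)), (v : ℕ)) ∈ E ↔ E0 u l v)
        (hR : ∀ (u : Fin n) (j : Fin c) (v : Fin n), (((u : ℕ), σ j), (v : ℕ)) ∈ E ↔ R j u v)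
        (hb : ∀ e ∈ E, e.1.1 < n ∧ e.2 < n) (z : Fin r → Fin n),
        CqSat n E q (List.ofFn fun i => (z i : ℕ)) ↔
          ∃ μ : Fin b.n → Fin n, b.Holds E0 R μ ∧ ∀ i, μ (out i) = z i

/-- Flattening of nested queries. -/
def V_FL : Prop :=
  ∀ (a k M : ℕ) (hk : 1 ≤ k) (ω : RQ (Fin a)) (hw : ω.Width k) (hs : ω.Simple) (pre : List UqC)
    (hM : a + pre.length + ω.size + 2 ≤ M),
    ∃ new : List UqC, 0 < new.length ∧ new.length ≤ ω.size ∧ (∀ Q ∈ new, Q ∈ uqU M) ∧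
      (∀ i < new.length, WfUq (a + pre.length + i) 2 k (new.getD i [])) ∧
      (∀ Q ∈ new, SiUq a Q) ∧
      ∀ (n : ℕ) (E : GrC), GrOK n a E → ∀ u v : Fin n,
        (((u : ℕ), a + pre.length + new.length - 1), (v : ℕ)) ∈ progE n a E (pre ++ new) ↔
          ω.Sat (toRel n a E) u v

/-- From queries to programs. -/
def V_QP : Prop :=
  ∀ (a r k : ℕ) (hk : 1 ≤ k) (Δ : Query (Fin a) r), Δ.Width k → Δ.Simple → ∀ M : ℕ,
    a + Δ.size + r + 2 ≤ M →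
    ∃ P ∈ prU M, WfPr a r k P ∧ SiPr a P ∧
      ∀ (n : ℕ) (E : GrC), GrOK n a E → ∀ z : Fin r → Fin n,
        (PrSat n a E P (List.ofFn fun i => (z i : ℕ)) ↔ Δ.Sat (toRel n a E) z)

/-- Codes of inputs. -/
def V_IN : Prop :=
  ∀ (a r : ℕ) (Γ : Query (Fin a) r) (x : UqC), Γ.IsUC2RPQ → Codes Γ x →
    szC x = Γ.size ∧ ∀ (n : ℕ) (E : GrC), GrOK n a E → ∀ z : Fin r → Fin n,
      (UqSat n E x (List.ofFn fun i => (z i : ℕ)) ↔ Γ.Sat (toRel n a E) z)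

def V_EX : Prop :=
  ∀ (a r : ℕ) (Γ : Query (Fin a) r), ∃ x, Codes Γ x

/-- Codes of graphs. -/
def V_GC : Prop :=
  (∀ (a n : ℕ) (E : GrC), E ∈ grU n a → GrOK n a E) ∧
  ∀ (a : ℕ) (V : Type) [Fintype V] (E : V → Fin a → V → Prop),
    ∃ E' ∈ grU (Fintype.card V) a, ∃ e : V ≃ Fin (Fintype.card V),
      ∀ (r : ℕ) (Γ : Query (Fin a) r) (z : Fin r → V),
        Γ.Sat E z ↔ Γ.Sat (toRel (Fintype.card V) a E') (fun i => e (z i))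

/-- Correctness of the decision procedure. -/
def V_DC : Prop :=
  ∀ (a k r : ℕ), 1 ≤ k → ∀ (Γ : Query (Fin a) r) (x : UqC), Γ.IsUC2RPQ → Codes Γ x →
    (Dec a k r x ↔ ∃ Ω : Query (Fin a) r, Ω.Width k ∧ Ω.Le Γ ∧ Γ.Le Ω)

end Pool.Agent.H76.SW
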