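import Mathlib

/-!
Semantic tree-width for Regular Queries: definitions.
-/

namespace Pool.Agent.H76.SW

/-- One step in the two-way graph of an edge relation `F` with labels in `Λ`: the letter
`(a, true)` is `a`, the letter `(a, false)` is `a⁻`. -/
def Step {Λ V : Type} (F : V → Λ → V → Prop) (u : V) (l : Λ × Bool) (v : V) : Prop :=
  if l.2 = true then F u l.1 v else F v l.1 u

/-- `Path F u w v`: a path from `u` to `v` in the two-way graph whose label is the word `w`
(the empty path has the empty label). -/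
inductive Path {Λ V : Type} (F : V → Λ → V → Prop) : V → List (Λ × Bool) → V → Prop
  | nil (u : V) : Path F u [] u
  | cons (u v t : V) (l : Λ × Bool) (w : List (Λ × Bool)) :
      Step F u l v → Path F v w t → Path F u (l :: w) t

/-- The body of a C2RPQ over the letters `A` and `c` further symbols: variables `Fin n`,
atoms `Fin m`; the atom `i` leads from `src i` to `tgt i` and its language is the regular language
of words over the two-way alphabet accepted by the automaton `aut i` with `st i` states. -/
structure Body (A : Type) (c : ℕ) where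
  n : ℕ
  m : ℕ
  src : Fin m → Fin n
  tgt : Fin m → Fin n
  st : Fin m → ℕ
  aut : (i : Fin m) → NFA ((A ⊕ Fin c) × Bool) (Fin (st i))

/-- The graph database `E` with an additional edge relation `R j` for each further symbol. -/
def ext {A V : Type} {c : ℕ} (E : V → A → V → Prop) (R : Fin c → V → V → Prop) :
    V → (A ⊕ Fin c) → V → Prop :=
  fun u l v => Sum.elim (fun a => E u a v) (fun j => R j u v) l

/-- The assignment `μ` of nodes to the variables satisfies all atoms. -/
def Body.Holds {A V : Type} {c : ℕ} (b : Body A c) (E : V → A → V → Prop)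
    (R : Fin c → V → V → Prop) (μ : Fin b.n → V) : Prop :=
  ∀ i, ∃ w ∈ (b.aut i).accepts, Path (ext E R) (μ (b.src i)) w (μ (b.tgt i))

/-- The undirected graph on the variables with an edge for every atom with different ends. -/
def Body.graph {A : Type} {c : ℕ} (b : Body A c) : SimpleGraph (Fin b.n) where
  Adj x y := x ≠ y ∧ ∃ i, (b.src i = x ∧ b.tgt i = y) ∨ (b.src i = y ∧ b.tgt i = x)
  symm := ⟨fun _ _ h => ⟨h.1.symm, h.2.imp fun _ h => h.symm⟩⟩
  loopless := ⟨fun _ h => h.1 rfl⟩

/-- Tree-width at most `k`. -/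
def TreeWidthLE {V : Type} (G : SimpleGraph V) (k : ℕ) : Prop :=
  ∃ (N : Type) (_ : Fintype N) (T : SimpleGraph N) (B : N → Set V),
    T.IsTree ∧ (∀ v, ∃ x, v ∈ B x) ∧ (∀ u v, G.Adj u v → ∃ x, u ∈ B x ∧ v ∈ B x) ∧
    (∀ v, (T.induce {x | v ∈ B x}).Connected) ∧ ∀ x, (B x).Finite ∧ (B x).ncard ≤ k + 1

/-- Binary Regular Queries: C2RPQs with two output variables in which further symbols stand
for binary Regular Queries, and finite unions. -/
inductive RQ (A : Type) : Type
  | cq (c : ℕ) (b : Body A c) (sub : Fin c → RQ A) (p q : Fin b.n) : RQ A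
  | union (u : ℕ) (sub : Fin u → RQ A) : RQ A

/-- The binary relation defined by a binary Regular Query on a graph database. -/
def RQ.Sat {A V : Type} (E : V → A → V → Prop) : RQ A → V → V → Prop
  | .cq _ b sub p q, u, v =>
      ∃ μ : Fin b.n → V, b.Holds E (fun j => (sub j).Sat E) μ ∧ μ p = u ∧ μ q = v
  | .union _ sub, u, v => ∃ j, (sub j).Sat E u v

/-- All C2RPQs in the nested definition have tree-width at most `k`. -/
def RQ.Width {A : Type} (k : ℕ) : RQ A → Prop
  | .cq _ b sub _ _ => TreeWidthLE b.graph k ∧ ∀ j, (sub j).Width k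
  | .union _ sub => ∀ j, (sub j).Width k

/-- A C2RPQ of arity `r` over the letters and over further symbols standing for binary Regular
Queries. For `c = 0` this is a C2RPQ. -/
structure CRQ (A : Type) (r : ℕ) where
  c : ℕ
  b : Body A c
  sub : Fin c → RQ A
  out : Fin r → Fin b.n

def CRQ.Sat {A V : Type} {r : ℕ} (t : CRQ A r) (E : V → A → V → Prop) (z : Fin r → V) : Prop :=
  ∃ μ : Fin t.b.n → V, t.b.Holds E (fun j => (t.sub j).Sat E) μ ∧ ∀ i, μ (t.out i) = z i

def CRQ.Width {A : Type} {r : ℕ} (k : ℕ) (t : CRQ A r) : Prop :=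
  TreeWidthLE t.b.graph k ∧ ∀ j, (t.sub j).Width k

/-- A Regular Query of arity `r` is a finite union of `CRQ`s. -/
abbrev Query (A : Type) (r : ℕ) := List (CRQ A r)

/-- The tuple `z` is in the evaluation of the query on the graph database `E`. -/
def Query.Sat {A V : Type} {r : ℕ} (Γ : Query A r) (E : V → A → V → Prop) (z : Fin r → V) :
    Prop :=
  ∃ t ∈ Γ, t.Sat E z

def Query.Width {A : Type} {r : ℕ} (k : ℕ) (Γ : Query A r) : Prop := ∀ t ∈ Γ, t.Width k

/-- Finite unions of C2RPQs. -/
def Query.IsUC2RPQ {A : Type} {r : ℕ} (Γ : Query A r) : Prop := ∀ t ∈ Γ, t.c = 0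

/-- Containment: on every graph database (finite edge-labelled graph). -/
def Query.Le {A : Type} {r : ℕ} (Γ Δ : Query A r) : Prop :=
  ∀ (V : Type) [Finite V] (E : V → A → V → Prop) (z : Fin r → V), Γ.Sat E z → Δ.Sat E z

/-- All atoms are simple: the language of the atom consists of words over the letters `A` only,
or it is a single further symbol. -/
def Body.Simple {A : Type} {c : ℕ} (b : Body A c) : Prop :=
  ∀ i, (∀ w ∈ (b.aut i).accepts, ∀ l ∈ w, ∃ a, l.1 = Sum.inl a) ∨
    ∃ j, (b.aut i).accepts = {[(Sum.inr j, true)]}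

/-- Further symbols are used only as atoms by themselves (no closure, no composition). -/
def RQ.Simple {A : Type} : RQ A → Prop
  | .cq _ b sub _ _ => b.Simple ∧ ∀ j, (sub j).Simple
  | .union _ sub => ∀ j, (sub j).Simple

def CRQ.Simple {A : Type} {r : ℕ} (t : CRQ A r) : Prop := t.b.Simple ∧ ∀ j, (t.sub j).Simple

def Query.Simple {A : Type} {r : ℕ} (Γ : Query A r) : Prop := ∀ t ∈ Γ, t.Simple

/-- Size: variables, atoms, states and further symbols. -/
def Body.size {A : Type} {c : ℕ} (b : Body A c) : ℕ := c + b.n + b.m + ∑ i, b.st i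

def RQ.size {A : Type} : RQ A → ℕ
  | .cq _ b sub _ _ => 1 + b.size + ∑ j, (sub j).size
  | .union u sub => 1 + u + ∑ j, (sub j).size

def CRQ.size {A : Type} {r : ℕ} (t : CRQ A r) : ℕ := 1 + t.b.size + ∑ j, (t.sub j).size

def Query.size {A : Type} {r : ℕ} (Γ : Query A r) : ℕ := (Γ.map CRQ.size).sum

end Pool.Agent.H76.SW
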