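import Pool.Agent.H76.SW.FSd

/-!
Further definitions used by the modules.
-/

namespace Pool.Agent.H76.SW

open Relation

/-- Joint automaton of a family (transitions by letters of `A` only). -/
def joint {A I : Type} {c st : I → ℕ}
    (M : (i : I) → NFA ((A ⊕ Fin (c i)) × Bool) (Fin (st i))) :
    (Σ i, Fin (st i)) → A × Bool → (Σ i, Fin (st i)) → Prop :=
  fun x l y => ∃ i s s', x = ⟨i, s⟩ ∧ y = ⟨i, s'⟩ ∧ s' ∈ (M i).step s (Sum.inl l.1, l.2)

/-- Size bound of a body with `n` variables all of whose atoms are facts, and `w` symbols. -/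
def bsz (n q w : ℕ) : ℕ := w + n + ((n * q) ^ 2 + w) + ((n * q) ^ 2 * q + w * 2)

/-- The step relation by which reachability between torso variables is generated. -/
def TStep {P Q : Type} {n m : ℕ} (src tgt : Fin m → Fin n) (ρ : P × Q → P × Q → Prop)
    (tp : Fin n → P) (p q : Fin n) (x y : Fin n × Q) : Prop :=
  ρ (tp x.1, x.2) (tp y.1, y.2) ∧
    (x.1 = y.1 ∨ (∃ i, (x.1 = src i ∨ x.1 = tgt i) ∧ (y.1 = src i ∨ y.1 = tgt i)) ∨
      ((x.1 = p ∨ x.1 = q) ∧ (y.1 = p ∨ y.1 = q)))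

/-- `δ` is a good query for the labelled positions `pos` and the ports `pp`. -/
def Good {A P Q L : Type} (gs : P → Option (A × Bool) → P → Prop) (tr : Q → A × Bool → Q → Prop)
    (k bd nn : ℕ) (pos : L → P) (pp : Bool → P) (δ : RQ A) : Prop :=
  δ.Width k ∧ δ.Simple ∧ δ.size ≤ bd ∧ IsFQ tr nn δ ∧
  δ.Sat (canon gs) (cl gs (pp false)) (cl gs (pp true)) ∧
  ∀ (V : Type) (E : V → A → V → Prop) (h : Bool → V), δ.Sat E (h false) (h true) →
    RP (rho gs tr) pp E tr h →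
    ∃ ν : L → V, RP (rho gs tr) (Sum.elim pos pp) E tr (Sum.elim ν h)

/-- No child contains all labels. -/
def Branch {A L : Type} : (T : Term A) → (L → T.Pos) → Prop
  | .edge _, _ => True
  | .node _ m _ _ _ _ _, lab => ∀ i : Fin m, ∃ a, ∀ x, lab a ≠ Sum.inr ⟨i, x⟩

/-- Every walk between `x` and `y` passes one of the positions `c a`. -/
def Sep {A P Q I : Type} (gs : P → Option (A × Bool) → P → Prop) (tr : Q → A × Bool → Q → Prop)
    (c : I → P) (x y : P) : Prop :=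
  (∀ s s', rho gs tr (x, s) (y, s') →
    ∃ a s1, rho gs tr (x, s) (c a, s1) ∧ rho gs tr (c a, s1) (y, s')) ∧
  ∀ s s', rho gs tr (y, s) (x, s') →
    ∃ a s1, rho gs tr (y, s) (c a, s1) ∧ rho gs tr (c a, s1) (x, s')

/-- Wrapping constants. -/
def KW (q : ℕ) : ℕ := 2 ^ (2 * (2 * q) ^ 2)

def WW (q : ℕ) : ℕ := 2 + bsz 3 q 1 + bsz 4 q 1 + KW q * (1 + bsz 4 q 1)

def WN (q : ℕ) : ℕ := 7 + 4 * KW q

/-- One can descend to a branching term and come back with a wrapper of bounded size. -/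
def Wrap {A P Q : Type} [Fintype Q] (gs : P → Option (A × Bool) → P → Prop)
    (tr : Q → A × Bool → Q → Prop) (k : ℕ) : Prop :=
  ∀ (L : Type) [Fintype L] [Nonempty L] (T : Term A), T.Width k → ∀ (ι : T.Pos → P), Occ gs T ι →
    ∀ lab : L → T.Pos, ∃ (T' : Term A) (ι' : T'.Pos → P) (lab' : L → T'.Pos), T'.Width k ∧
      Occ gs T' ι' ∧ (∀ a, ι' (lab' a) = ι (lab a)) ∧ Branch T' lab' ∧
      ∀ (bd nn : ℕ) (δ' : RQ A),
        Good gs tr k bd nn (fun a => ι (lab a)) (fun c => ι' (T'.pt c)) δ' →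
        ∃ δ : RQ A, Good gs tr k (WW (Fintype.card Q) + bd) (WN (Fintype.card Q) + nn)
          (fun a => ι (lab a)) (fun c => ι (T.pt c)) δ

/-- Bounds for the sizes and for the numbers of variables of the unfolded queries. -/
def SB (k q : ℕ) : ℕ → ℕ
  | 0 => 3
  | y + 1 => WW q + 1 + bsz (NB (y + 3) (k + 1) q * (k + 1)) q (y + 1) + (y + 1) * SB k q y

def SN (k q : ℕ) : ℕ → ℕ
  | 0 => 2
  | y + 1 => WN q + NB (y + 3) (k + 1) q * (k + 1) + (y + 1) * SN k q y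

/-- Sizes at the top level. -/
def TB (k q y : ℕ) : ℕ := 1 + bsz (NB (y + 2) (k + 1) q * (k + 1)) q y + y * SB k q y

def TN (k q y : ℕ) : ℕ := NB (y + 2) (k + 1) q * (k + 1) + y * SN k q y

/-- Size bound for the maximal under-approximation of a union of conjunctions of facts. -/
def BB (k r n q : ℕ) : ℕ := 2 ^ ((TN k q n * q) ^ 2) * TN k q n ^ r * TB k q n

/-- Steps of a ladder with levels `0, ..., L`, pairs `pr j` and link flags `σ j` between the
levels `j` and `j + 1`. -/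
def LS {P Q : Type} (ρ : P × Q → P × Q → Prop) (L : ℕ) (pr : ℕ → Bool → P) (σ : ℕ → Bool)
    (a b : (ℕ × Bool) × Q) : Prop :=
  ρ (pr a.1.1 a.1.2, a.2) (pr b.1.1 b.1.2, b.2) ∧
    ((a.1.1 = b.1.1) ∨
     (b.1.1 = a.1.1 + 1 ∧ b.1.1 ≤ L ∧ b.1.2 = xor a.1.2 (σ a.1.1)) ∨
     (a.1.1 = b.1.1 + 1 ∧ a.1.1 ≤ L ∧ a.1.2 = xor b.1.2 (σ b.1.1)))

end Pool.Agent.H76.SW
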