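import Pool.Agent.H76.SW.Defs2

/-!
Definitions for the small model property.
-/

namespace Pool.Agent.H76.SW

open Relation

/-- A union of conjunctions of facts on `n` variables, arity `r`. -/
def USat {A Q V : Type} {n r : ℕ} (tr : Q → A × Bool → Q → Prop)
    (U : Set (Set ((Fin n × Q) × (Fin n × Q)) × (Fin r → Fin n)))
    (E : V → A → V → Prop) (z : Fin r → V) : Prop :=
  ∃ f ∈ U, ∃ μ : Fin n → V,
    (∀ e ∈ f.1, Reach E tr (μ e.1.1, e.1.2) (μ e.2.1, e.2.2)) ∧ ∀ i, μ (f.2 i) = z i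

/-- Two systems glued along two pairs of positions. -/
def glue {A C H : Type} (gC : C → Option (A × Bool) → C → Prop)
    (gH : H → Option (A × Bool) → H → Prop) (c : Bool → C) (h : Bool → H) :
    C ⊕ H → Option (A × Bool) → C ⊕ H → Prop
  | .inl x, l, .inl y => gC x l y
  | .inr x, l, .inr y => gH x l y
  | .inl x, l, .inr y => l = none ∧ ∃ b, x = c b ∧ y = h b
  | .inr x, l, .inl y => l = none ∧ ∃ b, y = c b ∧ x = h b

/-- Positions of placed variables and ports. -/
def lpos {H : Type} {n : ℕ} (pl : Fin n → H) (h : Bool → H) : Fin n ⊕ Bool → H := Sum.elim pl h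

/-- The local type of a system with two ports. -/
def LT {A H Q : Type} (n : ℕ) (gH : H → Option (A × Bool) → H → Prop) (h : Bool → H)
    (tr : Q → A × Bool → Q → Prop) :
    Set (Set (((Fin n ⊕ Bool) × Q) × ((Fin n ⊕ Bool) × Q))) :=
  {Φ | ∃ pl : Fin n → H, ∀ e ∈ Φ, rho gH tr (lpos pl h e.1.1, e.1.2) (lpos pl h e.2.1, e.2.2)}

/-- The path system of a word (positions `0, ..., w.length`; the others are isolated). -/
def pw {A : Type} (w : List (A × Bool)) : ℕ → Option (A × Bool) → ℕ → Prop :=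
  fun x l y => ∃ a : A × Bool, (l = some a ∧ x + 1 = y ∧ w[x]? = some a) ∨
    (l = some (a.1, !a.2) ∧ y + 1 = x ∧ w[y]? = some a)

/-- The ends of the path. -/
def pe {A : Type} (w : List (A × Bool)) (b : Bool) : ℕ := if b then w.length else 0

/-- Nodes `Fin n` connected by paths: the path `w e` leads from `x e` to `y e`; the silent link
at the start of the path `e` is present iff `D e` holds. -/
def ws {A I : Type} {n : ℕ} (x y : I → Fin n) (w : I → List (A × Bool)) (D : I → Prop) :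
    (Fin n ⊕ (I × ℕ)) → Option (A × Bool) → (Fin n ⊕ (I × ℕ)) → Prop :=
  fun u l v =>
    (∃ e s t, u = Sum.inr (e, s) ∧ v = Sum.inr (e, t) ∧ pw (w e) s l t) ∨
    (l = none ∧ ∃ e, ∃ b : Bool, (b = true ∨ D e) ∧
      ((u = Sum.inl (if b then y e else x e) ∧ v = Sum.inr (e, pe (w e) b)) ∨
       (v = Sum.inl (if b then y e else x e) ∧ u = Sum.inr (e, pe (w e) b))))

/-- The automaton has a run from `s` to `s'` on the word. -/
def Run {A Q : Type} (tr : Q → A × Bool → Q → Prop) : Q → List (A × Bool) → Q → Prop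
  | s, [], s' => s = s'
  | s, l :: w, s' => ∃ t, tr s l t ∧ Run tr t w s'

/-- Bounds. -/
def KT (q1 n2 q2 : ℕ) : ℕ := q1 * 2 ^ 2 ^ (((n2 + 2) * q2) ^ 2)

def SM (n1 q1 n2 q2 : ℕ) : ℕ := n1 + (n1 * q1) ^ 2 * (KT q1 n2 q2 + 1)

end Pool.Agent.H76.SW
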