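import Pool.Agent.H76.SW.EL1

/-!
For unions of C2RPQs the size bound is at most twofold exponential.
-/

namespace Pool.Agent.H76.SWE

open Pool.Agent.H76.SW

/-- at most exponential in a quadratic polynomial -/
def X1 (f : ℕ → ℕ) : Prop := ∃ c : ℕ, ∀ s, f s ≤ 2 ^ (c * (s + 1) ^ 2)

/-- at most twofold exponential -/
def X2 (f : ℕ → ℕ) : Prop := ∃ c : ℕ, ∀ s, f s ≤ 2 ^ 2 ^ (c * (s + 1) ^ 2)

theorem X1.mono {f g : ℕ → ℕ} (h : ∀ s, f s ≤ g s) (hg : X1 g) : X1 f := by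
  obtain ⟨c, hc⟩ := hg
  exact ⟨c, fun s => (h s).trans (hc s)⟩

theorem X1.const (n : ℕ) : X1 (fun _ => n) := by
  refine ⟨n, fun s => (le_two_pow n).trans (two_le_pow ?_)⟩
  have : 1 ≤ (s + 1) ^ 2 := Nat.one_le_pow _ _ (by omega)
  nlinarith

theorem X1.suc : X1 (fun s => s + 1) := by
  refine ⟨1, fun s => (le_two_pow _).trans (two_le_pow ?_)⟩
  nlinarith

theorem X1.mul {f g : ℕ → ℕ} (hf : X1 f) (hg : X1 g) : X1 (fun s => f s * g s) := by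
  obtain ⟨c, hc⟩ := hf
  obtain ⟨d, hd⟩ := hg
  refine ⟨c + d, fun s => ?_⟩
  calc f s * g s ≤ 2 ^ (c * (s + 1) ^ 2) * 2 ^ (d * (s + 1) ^ 2) := Nat.mul_le_mul (hc s) (hd s)
    _ = 2 ^ ((c + d) * (s + 1) ^ 2) := by rw [← pow_add]; ring_nf

theorem X1.add {f g : ℕ → ℕ} (hf : X1 f) (hg : X1 g) : X1 (fun s => f s + g s) := by
  obtain ⟨c, hc⟩ := hf
  obtain ⟨d, hd⟩ := hg
  refine ⟨c + d + 1, fun s => ?_⟩
  have h0 : 1 ≤ (s + 1) ^ 2 := Nat.one_le_pow _ _ (by omega)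
  have h1 : 2 ^ (c * (s + 1) ^ 2) ≤ 2 ^ ((c + d) * (s + 1) ^ 2) := two_le_pow (by nlinarith)
  have h2 : 2 ^ (d * (s + 1) ^ 2) ≤ 2 ^ ((c + d) * (s + 1) ^ 2) := two_le_pow (by nlinarith)
  have h3 : 2 ^ ((c + d) * (s + 1) ^ 2 + 1) ≤ 2 ^ ((c + d + 1) * (s + 1) ^ 2) :=
    two_le_pow (by nlinarith)
  have h4 : 2 ^ ((c + d) * (s + 1) ^ 2 + 1) = 2 * 2 ^ ((c + d) * (s + 1) ^ 2) := by
    rw [pow_succ]; ring
  have := hc s
  have := hd s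
  show f s + g s ≤ _
  omega

theorem X1.powc {f : ℕ → ℕ} (hf : X1 f) (n : ℕ) : X1 (fun s => f s ^ n) := by
  obtain ⟨c, hc⟩ := hf
  refine ⟨c * n, fun s => ?_⟩
  calc f s ^ n ≤ (2 ^ (c * (s + 1) ^ 2)) ^ n := Nat.pow_le_pow_left (hc s) _
    _ = 2 ^ (c * n * (s + 1) ^ 2) := by rw [← pow_mul]; ring_nf

/-- constants to quadratic powers -/
theorem X1.cpow (a b : ℕ) : X1 (fun s => a ^ (b * (s + 1) ^ 2)) := by
  refine ⟨a * b, fun s => ?_⟩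
  calc a ^ (b * (s + 1) ^ 2) ≤ (2 ^ a) ^ (b * (s + 1) ^ 2) :=
        Nat.pow_le_pow_left (le_two_pow a) _
    _ = 2 ^ (a * b * (s + 1) ^ 2) := by rw [← pow_mul]; ring_nf

theorem X1.self_pow (t : ℕ) : X1 (fun s => (s + 1 + t) ^ (s + 1)) := by
  refine ⟨t + 1, fun s => ?_⟩
  calc (s + 1 + t) ^ (s + 1) ≤ (2 ^ (s + 1 + t)) ^ (s + 1) :=
        Nat.pow_le_pow_left (le_two_pow _) _
    _ = 2 ^ ((s + 1 + t) * (s + 1)) := by rw [← pow_mul]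
    _ ≤ 2 ^ ((t + 1) * (s + 1) ^ 2) := two_le_pow (by nlinarith [Nat.zero_le (t * s)])

theorem X2.mul {f g : ℕ → ℕ} (hf : X2 f) (hg : X2 g) : X2 (fun s => f s * g s) := by
  obtain ⟨c, hc⟩ := hf
  obtain ⟨d, hd⟩ := hg
  have hp : X1 (fun s => 2 ^ (c * (s + 1) ^ 2) + 2 ^ (d * (s + 1) ^ 2)) :=
    X1.add ⟨c, fun _ => le_rfl⟩ ⟨d, fun _ => le_rfl⟩
  obtain ⟨e, he⟩ := hp
  refine ⟨e, fun s => ?_⟩
  calc f s * g s ≤ 2 ^ 2 ^ (c * (s + 1) ^ 2) * 2 ^ 2 ^ (d * (s + 1) ^ 2) :=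
        Nat.mul_le_mul (hc s) (hd s)
    _ = 2 ^ (2 ^ (c * (s + 1) ^ 2) + 2 ^ (d * (s + 1) ^ 2)) := by rw [← pow_add]
    _ ≤ 2 ^ 2 ^ (e * (s + 1) ^ 2) := two_le_pow (he s)

theorem X2.pow2 {f : ℕ → ℕ} (hf : X1 f) : X2 (fun s => 2 ^ f s) := by
  obtain ⟨c, hc⟩ := hf
  exact ⟨c, fun s => two_le_pow (hc s)⟩

theorem X1.toX2 {f : ℕ → ℕ} (hf : X1 f) : X2 f := by
  obtain ⟨c, hc⟩ := hf
  exact ⟨c, fun s => (hc s).trans (two_le_pow (le_two_pow _))⟩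

/-! ### the constants -/

theorem x_bsz {n q w : ℕ → ℕ} (hn : X1 n) (hq : X1 q) (hw : X1 w) :
    X1 (fun s => bsz (n s) (q s) (w s)) := by
  unfold bsz
  have h1 : X1 (fun s => (n s * q s) ^ 2) := (hn.mul hq).powc 2
  exact ((hw.add hn).add (h1.add hw)).add ((h1.mul hq).add (hw.mul (X1.const 2)))

theorem x_KW : X1 (fun s => KW (s + 1)) := by
  unfold KW
  refine (X1.cpow 2 8).mono fun s => le_of_eq ?_
  congr 1
  ring

theorem x_WW : X1 (fun s => WW (s + 1)) := by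
  unfold WW
  have h3 : X1 (fun s => bsz 3 (s + 1) 1) := x_bsz (X1.const 3) X1.suc (X1.const 1)
  have h4 : X1 (fun s => bsz 4 (s + 1) 1) := x_bsz (X1.const 4) X1.suc (X1.const 1)
  exact (((X1.const 2).add h3).add h4).add (x_KW.mul ((X1.const 1).add h4))

theorem x_WN : X1 (fun s => WN (s + 1)) := by
  unfold WN
  exact (X1.const 7).add ((X1.const 4).mul x_KW)

theorem x_NB (κ : ℕ) {m : ℕ → ℕ} (hm : X1 m) : X1 (fun s => NB (m s) κ (s + 1)) := by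
  unfold NB
  have h : X1 (fun s => κ ^ (2 * (κ * (s + 1)) ^ 2)) := by
    refine (X1.cpow κ (2 * κ ^ 2)).mono fun s => le_of_eq ?_
    congr 1
    ring
  exact ((X1.const 2).mul hm).mul (h.add (X1.const 1))

theorem x_NBY (k t : ℕ) : X1 (fun s => NB (s + 1 + t) (k + 1) (s + 1) * (k + 1)) :=
  (x_NB (k + 1) (X1.suc.add (X1.const t))).mul (X1.const (k + 1))

theorem x_D (k : ℕ) : X1 (fun s => (DD k (s + 1) (s + 1) + 3) * (s + 1 + 2) ^ (s + 1)) := by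
  have h2 : X1 (fun s => DD k (s + 1) (s + 1)) := by
    unfold DD
    exact (x_WN.add (x_NBY k 3)).add ((x_WW.add (X1.const 1)).add
      (x_bsz (x_NBY k 3) X1.suc (X1.suc.add (X1.const 1))))
  exact (h2.add (X1.const 3)).mul (X1.self_pow 2)

theorem x_TN (k : ℕ) : X1 (fun s => TN k (s + 1) (s + 1)) := by
  unfold TN
  have h : X1 (fun s => SN k (s + 1) (s + 1)) :=
    (x_D k).mono fun s => SN_bound k (s + 1) (s + 1) _ le_rfl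
  exact (x_NBY k 2).add (X1.suc.mul h)

theorem x_TB (k : ℕ) : X1 (fun s => TB k (s + 1) (s + 1)) := by
  unfold TB
  have h : X1 (fun s => SB k (s + 1) (s + 1)) :=
    (x_D k).mono fun s => SB_bound k (s + 1) (s + 1) _ le_rfl
  exact ((X1.const 1).add (x_bsz (x_NBY k 2) X1.suc X1.suc)).add (X1.suc.mul h)

theorem el3 (k r : ℕ) : ∃ c : ℕ, ∀ s, 1 + BB k r (s + 1) (s + 1) ≤ 2 ^ 2 ^ (c * (s + 1) ^ 2) := by
  have h1 : X2 (fun s => 2 ^ (TN k (s + 1) (s + 1) * (s + 1)) ^ 2) :=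
    X2.pow2 (((x_TN k).mul X1.suc).powc 2)
  have h2 : X2 (fun s => BB k r (s + 1) (s + 1)) := by
    unfold BB
    exact (h1.mul ((x_TN k).powc r).toX2).mul (x_TB k).toX2
  obtain ⟨d, hd⟩ := h2
  obtain ⟨e, he⟩ := (X1.const 2).toX2.mul (⟨d, fun _ => le_rfl⟩ :
      X2 (fun s => 2 ^ 2 ^ (d * (s + 1) ^ 2)))
  refine ⟨e, fun s => ?_⟩
  have h4 := hd s
  have h5 := he s
  have h6 : 1 ≤ 2 ^ 2 ^ (d * (s + 1) ^ 2) := Nat.one_le_two_pow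
  simp only at h4 h5
  show 1 + BB k r (s + 1) (s + 1) ≤ _
  omega

end Pool.Agent.H76.SWE
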