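import Pool.Agent.H76.SW.Sys

/-!
Finite tree shaped structures (`FS`): bags with `κ` slots, slots of a bag are linked with slots of
the parent bag by a partial injection which leaves out at least one slot of the child.
-/

namespace Pool.Agent.H76.SW

open Relation

structure FS (P : Type) (κ : ℕ) where
  N : Type
  fin : Fintype N
  par : N → Option N
  rk : N → ℕ
  hrk : ∀ x y, par x = some y → rk y < rk x
  f : N → Fin κ → P
  lk : N → Fin κ → Fin κ → Prop
  inj : ∀ x l l' m m', lk x l l' → lk x m m' → (l = m ↔ l' = m')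
  nf : ∀ x, ∃ l, ∀ l', ¬ lk x l l'

/-- The steps of the preorder generated by the bags, the links and the special pair `a`, `b`. -/
inductive FS.St {P Q : Type} {κ : ℕ} (F : FS P κ) (ρ : P × Q → P × Q → Prop)
    (a b : F.N × Fin κ) : (F.N × Fin κ) × Q → (F.N × Fin κ) × Q → Prop
  | node (x : F.N) (l l' : Fin κ) (s s' : Q) :
      ρ (F.f x l, s) (F.f x l', s') → FS.St F ρ a b ((x, l), s) ((x, l'), s')
  | up (x y : F.N) (l l' : Fin κ) (s s' : Q) : F.par x = some y → F.lk x l l' →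
      ρ (F.f x l, s) (F.f y l', s') → FS.St F ρ a b ((x, l), s) ((y, l'), s')
  | down (x y : F.N) (l l' : Fin κ) (s s' : Q) : F.par x = some y → F.lk x l l' →
      ρ (F.f y l', s) (F.f x l, s') → FS.St F ρ a b ((y, l'), s) ((x, l), s')
  | ab (s s' : Q) : ρ (F.f a.1 a.2, s) (F.f b.1 b.2, s') → FS.St F ρ a b (a, s) (b, s')
  | ba (s s' : Q) : ρ (F.f b.1 b.2, s) (F.f a.1 a.2, s') → FS.St F ρ a b (b, s) (a, s')

def FS.Gen {P Q : Type} {κ : ℕ} (F : FS P κ) (ρ : P × Q → P × Q → Prop)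
    (a b : F.N × Fin κ) : (F.N × Fin κ) × Q → (F.N × Fin κ) × Q → Prop :=
  ReflTransGen (F.St ρ a b)

/-- `F` with the marked bags `mk j` simulates `ρ` on the bags `g j`. -/
def Sim {P Q J : Type} {κ : ℕ} (ρ : P × Q → P × Q → Prop) (g : J → Fin κ → P)
    (ja jb : J) (la lb : Fin κ) (F : FS P κ) : Prop :=
  ∃ mk : J → F.N, (∀ j, F.f (mk j) = g j) ∧
    ∀ j j' l l' s s', ρ (g j l, s) (g j' l', s') →
      F.Gen ρ (mk ja, la) (mk jb, lb) ((mk j, l), s) ((mk j', l'), s')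

def FS.size {P : Type} {κ : ℕ} (F : FS P κ) : ℕ := @Fintype.card F.N F.fin

/-- The graph on the slots: all pairs in a bag and all linked pairs. -/
def FS.graph {P : Type} {κ : ℕ} (F : FS P κ) : SimpleGraph (F.N × Fin κ) where
  Adj u v := u ≠ v ∧ (u.1 = v.1 ∨ (F.par u.1 = some v.1 ∧ F.lk u.1 u.2 v.2) ∨
    (F.par v.1 = some u.1 ∧ F.lk v.1 v.2 u.2))
  symm := ⟨fun u v h => ⟨h.1.symm, by
    rcases h.2 with h | h | h
    · exact Or.inl h.symm
    · exact Or.inr (Or.inr h)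
    · exact Or.inr (Or.inl h)⟩⟩
  loopless := ⟨fun _ h => h.1 rfl⟩

/-- Rooted tree decompositions. -/
structure RD {V : Type} (G : SimpleGraph V) (k : ℕ) where
  N : Type
  fin : Fintype N
  par : N → Option N
  rk : N → ℕ
  hrk : ∀ x y, par x = some y → rk y < rk x
  B : N → Finset V
  cov : ∀ v, ∃ x, v ∈ B x
  edge : ∀ u v, G.Adj u v → ∃ x, u ∈ B x ∧ v ∈ B x
  conn : ∀ v, ∃ t, v ∈ B t ∧ ∀ x, v ∈ B x → x = t ∨ ∃ y, par x = some y ∧ v ∈ B y
  card : ∀ x, (B x).card ≤ k + 1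

/-- Bound for the number of bags. -/
def NB (m κ q : ℕ) : ℕ := 2 * m * (κ ^ (2 * (κ * q) ^ 2) + 1)

/-- The body `b` is a conjunction of facts `Fb`, and of one atom for each further symbol. -/
def BodyForm {A Q : Type} (tr : Q → A × Bool → Q → Prop) {c : ℕ} (b : Body A c)
    (Fb : Set ((Fin b.n × Q) × (Fin b.n × Q))) (l1 l2 : Fin c → Fin b.n) : Prop :=
  ∀ (V : Type) (E : V → A → V → Prop) (R : Fin c → V → V → Prop) (μ : Fin b.n → V),
    b.Holds E R μ ↔
      (∀ e ∈ Fb, Reach E tr (μ e.1.1, e.1.2) (μ e.2.1, e.2.2)) ∧ ∀ j, R j (μ (l1 j)) (μ (l2 j))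

end Pool.Agent.H76.SW
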