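import Pool.Agent.H76.SW.T

/-!
The final theorem from the last modules.
-/

namespace Pool.Agent.H76.SW

theorem le_size_mono {a b c d : ℕ} (h : c ≤ d) : SM (2 ^ a) b (2 ^ c) c ≤ SM (2 ^ a) b (2 ^ d) d := by
  unfold SM KT
  gcongr <;> norm_num

theorem le_size_mono2 {a b c d : ℕ} (h : c ≤ d) : SM (2 ^ c) c (2 ^ a) b ≤ SM (2 ^ d) d (2 ^ a) b := by
  unfold SM KT
  gcongr <;> norm_num

theorem final (h3 : U_t3_max) (h4 : U_t4_small) (h1 : U_p1_prim) (k r : ℕ) (hk : 1 ≤ k) :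
    ∃ B C : ℕ → ℕ, Primrec B ∧ Primrec C ∧
      ∀ (A : Type) (Γ : Query A r), Γ.Simple →
        (∃ Δ : Query A r, Δ.Width k ∧ Δ.Simple ∧ Δ.size ≤ B Γ.size ∧ Δ.Le Γ ∧
          ∀ Ω : Query A r, Ω.Width k → Ω.Le Γ → Ω.Le Δ) ∧
        ((∃ Ω : Query A r, Ω.Width k ∧ Ω.Le Γ ∧ Γ.Le Ω) ↔
          ∃ Δ : Query A r, Δ.Width k ∧ Δ.Simple ∧ Δ.size ≤ B Γ.size ∧
            ∀ (V : Type) [Fintype V], Fintype.card V ≤ C Γ.size →
              ∀ (E : V → A → V → Prop) (z : Fin r → V), Γ.Sat E z ↔ Δ.Sat E z) := by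
  set B : ℕ → ℕ := fun s => 1 + BB k r (2 ^ s) s with hB
  obtain ⟨p1, p2⟩ := h1 k r
  refine ⟨B, fun s => SM (2 ^ s) s (2 ^ B s) (B s) + SM (2 ^ B s) (B s) (2 ^ s) s, p1,
    p2 B p1, ?_⟩
  intro A Γ hΓ
  obtain ⟨Δ, hw, hs, hsz, hle, hmax⟩ := h3 k hk r Γ hΓ
  refine ⟨⟨Δ, hw, hs, hsz, hle, hmax⟩, ?_, ?_⟩
  · rintro ⟨Ω, hΩ, h5, h6⟩
    refine ⟨Δ, hw, hs, hsz, ?_⟩
    intro V _ _ E z
    exact ⟨fun h => hmax Ω hΩ h5 V E z (h6 V E z h), fun h => hle V E z h⟩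
  · rintro ⟨Δ', hw', hs', hsz', hag⟩
    refine ⟨Δ', hw', ?_, ?_⟩
    · refine h4 Δ' Γ hs' hΓ ?_
      intro V _ hV E z h
      refine (hag V ?_ E z).2 h
      refine hV.trans (le_trans (le_size_mono2 hsz') ?_)
      exact Nat.le_add_left _ _
    · refine h4 Γ Δ' hΓ hs' ?_
      intro V _ hV E z h
      refine (hag V ?_ E z).1 h
      refine hV.trans (le_trans (le_size_mono hsz') ?_)
      exact Nat.le_add_right _ _

end Pool.Agent.H76.SW
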