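import Pool.Agent.H76.SW.T

/-!
Further statements: the bounds are elementary.
-/

namespace Pool.Agent.H76.SW

/-- The size bound is at most threefold exponential. -/
def U_el1 : Prop :=
  ∀ k r : ℕ, ∃ c : ℕ, ∀ s : ℕ, 1 + BB k r (2 ^ s) s ≤ 2 ^ 2 ^ 2 ^ (c * (s + 1))

/-- The bound for the graphs is at most sixfold exponential. -/
def U_el2 : Prop :=
  ∀ (B : ℕ → ℕ) (c : ℕ), (∀ s, B s ≤ 2 ^ 2 ^ 2 ^ (c * (s + 1))) →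
    ∃ c' : ℕ, ∀ s : ℕ, SM (2 ^ s) s (2 ^ B s) (B s) + SM (2 ^ B s) (B s) (2 ^ s) s ≤
      2 ^ 2 ^ 2 ^ 2 ^ 2 ^ 2 ^ (c' * (s + 1))

end Pool.Agent.H76.SW
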