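import Pool.Agent.H76.SW.CT
import Pool.Agent.H76.SW.T2

namespace Pool.Agent.H76.SW

open Classical in
theorem decision (h1 : V_DP) (h2 : V_DC) (h3 : V_EX) (k r a : ℕ) (hk : 1 ≤ k) :
    (∃ f : UqC → Bool, Primrec f ∧ ∀ (Γ : Query (Fin a) r) (x : UqC), Γ.IsUC2RPQ → Codes Γ x →
      (f x = true ↔ ∃ Ω : Query (Fin a) r, Ω.Width k ∧ Ω.Le Γ ∧ Γ.Le Ω)) ∧
    ∀ Γ : Query (Fin a) r, ∃ x, Codes Γ x := by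
  refine ⟨⟨fun x => decide (Dec a k r x), PrimrecPred.decide (h1 a k r), ?_⟩, h3 a r⟩
  intro Γ x hΓ hx
  rw [decide_eq_true_iff]
  exact h2 a k r hk Γ x hΓ hx

theorem maxapprox (h1 : U_t3_max) (h2 : U_el1) (k r : ℕ) (hk : 1 ≤ k) :
    ∃ c : ℕ, ∀ (A : Type) (Γ : Query A r), Γ.Simple →
      ∃ Δ : Query A r, Δ.Width k ∧ Δ.Simple ∧ Δ.size ≤ 2 ^ 2 ^ 2 ^ (c * (Γ.size + 1)) ∧
        Δ.Le Γ ∧ ∀ Ω : Query A r, Ω.Width k → Ω.Le Γ → Ω.Le Δ := by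
  obtain ⟨c, hc⟩ := h2 k r
  refine ⟨c, fun A Γ hΓ => ?_⟩
  obtain ⟨Δ, a1, a2, a3, a4⟩ := h1 k hk r Γ hΓ
  exact ⟨Δ, a1, a2, a3.trans (hc _), a4⟩

end Pool.Agent.H76.SW
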