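import Pool.Agent.H76.SW.Defs

/-!
Terms (canonical nested expansions), systems with silent steps, product reachability,
occurrences of terms, canonical databases, reach preserving maps, fact queries.
-/

namespace Pool.Agent.H76.SW

open Relation

/-- The graph on `Fin n` with an edge for every pair `src i ≠ tgt i`. -/
def torso {n m : ℕ} (src tgt : Fin m → Fin n) : SimpleGraph (Fin n) where
  Adj x y := x ≠ y ∧ ∃ i, (src i = x ∧ tgt i = y) ∨ (src i = y ∧ tgt i = x)
  symm := ⟨fun _ _ h => ⟨h.1.symm, h.2.imp fun _ h => h.symm⟩⟩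
  loopless := ⟨fun _ h => h.1 rfl⟩

inductive Term (A : Type) : Type
  | edge (a : A) : Term A
  | node (n m : ℕ) (src tgt : Fin m → Fin n) (ch : Fin m → Term A) (p q : Fin n) : Term A

def Term.Sat {A V : Type} (E : V → A → V → Prop) : Term A → V → V → Prop
  | .edge a, u, v => E u a v
  | .node n _ src tgt ch p q, u, v =>
      ∃ μ : Fin n → V, (∀ i, (ch i).Sat E (μ (src i)) (μ (tgt i))) ∧ μ p = u ∧ μ q = v

def Term.Width {A : Type} (k : ℕ) : Term A → Prop
  | .edge _ => True
  | .node _ _ src tgt ch _ _ => TreeWidthLE (torso src tgt) k ∧ ∀ i, (ch i).Width k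

/-- Positions of a term: the variables of all torsos, and the two ends of every edge. -/
def Term.Pos {A : Type} : Term A → Type
  | .edge _ => Bool
  | .node n m _ _ ch _ _ => Fin n ⊕ (Σ i : Fin m, (ch i).Pos)

/-- The two ports: `pt false` is the first, `pt true` the second output. -/
def Term.pt {A : Type} : (T : Term A) → Bool → T.Pos
  | .edge _, b => b
  | .node _ _ _ _ _ p q, b => Sum.inl (if b then q else p)

/-- Steps of a term: labelled steps (forward and backward) along edges, silent steps (label
`none`) between a port of the `i`-th child and the variable `src i` or `tgt i` it is glued to. -/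
def Term.stp {A : Type} : (T : Term A) → T.Pos → Option (A × Bool) → T.Pos → Prop
  | .edge a, x, l, y =>
      ((x : Bool) = false ∧ l = some (a, true) ∧ (y : Bool) = true) ∨
      ((x : Bool) = true ∧ l = some (a, false) ∧ (y : Bool) = false)
  | .node _ _ src tgt ch _ _, x, l, y =>
      (∃ i, ∃ x' y' : (ch i).Pos, x = Sum.inr ⟨i, x'⟩ ∧ y = Sum.inr ⟨i, y'⟩ ∧
        (ch i).stp x' l y') ∨
      (l = none ∧ ∃ i, ∃ b : Bool,
        (x = Sum.inl (if b then tgt i else src i) ∧ y = Sum.inr ⟨i, (ch i).pt b⟩) ∨
        (y = Sum.inl (if b then tgt i else src i) ∧ x = Sum.inr ⟨i, (ch i).pt b⟩))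

/-- The inverse of a label. -/
def inv {A : Type} : Option (A × Bool) → Option (A × Bool)
  | none => none
  | some (a, b) => some (a, !b)

/-- Steps of the product of a system with an automaton without initial and final states. -/
def rstep {A P Q : Type} (gs : P → Option (A × Bool) → P → Prop) (tr : Q → A × Bool → Q → Prop)
    (x y : P × Q) : Prop :=
  (gs x.1 none y.1 ∧ x.2 = y.2) ∨ ∃ l, gs x.1 (some l) y.1 ∧ tr x.2 l y.2

def rho {A P Q : Type} (gs : P → Option (A × Bool) → P → Prop) (tr : Q → A × Bool → Q → Prop) :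
    P × Q → P × Q → Prop :=
  ReflTransGen (rstep gs tr)

/-- Product reachability in a database. -/
def Reach {A V Q : Type} (E : V → A → V → Prop) (tr : Q → A × Bool → Q → Prop) :
    V × Q → V × Q → Prop :=
  ReflTransGen fun x y => ∃ l, Step E x.1 l y.1 ∧ tr x.2 l y.2

/-- The canonical database of a system: positions up to silent steps. -/
def Cv {A P : Type} (gs : P → Option (A × Bool) → P → Prop) : Type :=
  Quot fun x y : P => gs x none y

def canon {A P : Type} (gs : P → Option (A × Bool) → P → Prop) :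
    Cv gs → A → Cv gs → Prop :=
  fun u a v => ∃ x y : P, Quot.mk _ x = u ∧ Quot.mk _ y = v ∧ gs x (some (a, true)) y

/-- The class of a position. -/
def cl {A P : Type} (gs : P → Option (A × Bool) → P → Prop) (x : P) : Cv gs := Quot.mk _ x

/-- A symmetric system. -/
def Symm {A P : Type} (gs : P → Option (A × Bool) → P → Prop) : Prop :=
  ∀ x l y, gs x l y → gs y (inv l) x

/-- `ι` is an occurrence of the term `T` in the system `gs`: steps of `T` are steps of `gs`, and
a step of `gs` starting inside either is a step of `T` or leaves through a port. -/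
structure Occ {A P : Type} (gs : P → Option (A × Bool) → P → Prop) (T : Term A)
    (ι : T.Pos → P) : Prop where
  inj : Function.Injective ι
  step : ∀ x l y, T.stp x l y → gs (ι x) l (ι y)
  out : ∀ x l y, gs (ι x) l y →
    (∃ y', ι y' = y ∧ T.stp x l y') ∨ ((∃ b, x = T.pt b) ∧ y ∉ Set.range ι)

/-- `h` preserves the relation `ρ` between the positions `pos a`. -/
def RP {A P Q V I : Type} (ρ : P × Q → P × Q → Prop) (pos : I → P)
    (E : V → A → V → Prop) (tr : Q → A × Bool → Q → Prop) (h : I → V) : Prop :=
  ∀ a b s s', ρ (pos a, s) (pos b, s') → Reach E tr (h a, s) (h b, s')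

/-- The binary query `ω` is equivalent to a conjunction of facts on `n` variables. -/
def IsFQ {A Q : Type} (tr : Q → A × Bool → Q → Prop) (n : ℕ) (ω : RQ A) : Prop :=
  ∃ (F : Set ((Fin n × Q) × (Fin n × Q))) (a b : Fin n),
    ∀ (V : Type) (E : V → A → V → Prop) (u v : V),
      ω.Sat E u v ↔ ∃ μ : Fin n → V,
        (∀ e ∈ F, Reach E tr (μ e.1.1, e.1.2) (μ e.2.1, e.2.2)) ∧ μ a = u ∧ μ b = v

/-- The same for queries of arity `r`. -/
def IsFQr {A Q : Type} {r : ℕ} (tr : Q → A × Bool → Q → Prop) (n : ℕ) (ω : CRQ A r)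
    (F : Set ((Fin n × Q) × (Fin n × Q))) (o : Fin r → Fin n) : Prop :=
  ∀ (V : Type) (E : V → A → V → Prop) (z : Fin r → V),
    ω.Sat E z ↔ ∃ μ : Fin n → V,
      (∀ e ∈ F, Reach E tr (μ e.1.1, e.1.2) (μ e.2.1, e.2.2)) ∧ ∀ i, μ (o i) = z i

end Pool.Agent.H76.SW
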