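import Pool.Agent.H76.SW.Defs3

/-!
Statements of the modules.
-/

namespace Pool.Agent.H76.SW

open Relation

set_option linter.unusedVariables false

def U_q1_joint : Prop :=
  ∀ {A I V : Type} {c st : I → ℕ}
    (M : (i : I) → NFA ((A ⊕ Fin (c i)) × Bool) (Fin (st i))) (E : V → A → V → Prop) (i : I)
    (R : Fin (c i) → V → V → Prop)
    (hM : ∀ w ∈ (M i).accepts, ∀ l ∈ w, ∃ a, l.1 = Sum.inl a) (u v : V),
    (∃ w ∈ (M i).accepts, Path (ext E R) u w v) ↔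
      ∃ s ∈ (M i).start, ∃ s' ∈ (M i).accept,
        Reach E (joint M) (u, ⟨i, s⟩) (v, ⟨i, s'⟩)

def U_q2_fact : Prop :=
  ∀ {A Q : Type} [Fintype Q] (tr : Q → A × Bool → Q → Prop) (c : ℕ) (s s' : Q),
    ∃ M : NFA ((A ⊕ Fin c) × Bool) (Fin (Fintype.card Q)),
      (∀ w ∈ M.accepts, ∀ l ∈ w, ∃ a, l.1 = Sum.inl a) ∧
      ∀ (V : Type) (E : V → A → V → Prop) (R : Fin c → V → V → Prop) (u v : V),
        (∃ w ∈ M.accepts, Path (ext E R) u w v) ↔ Reach E tr (u, s) (v, s')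

def U_q3_letter : Prop :=
  ∀ {A : Type} (c : ℕ) (j : Fin c),
    ∃ M : NFA ((A ⊕ Fin c) × Bool) (Fin 2), M.accepts = {[(Sum.inr j, true)]} ∧
      ∀ (V : Type) (E : V → A → V → Prop) (R : Fin c → V → V → Prop) (u v : V),
        (∃ w ∈ M.accepts, Path (ext E R) u w v) ↔ R j u v

def U_q4_body : Prop :=
  ∀ {A Q : Type} [Fintype Q] (tr : Q → A × Bool → Q → Prop) (VT : Type) [Fintype VT]
    (F : Set ((VT × Q) × (VT × Q))) (w : ℕ) (l1 l2 : Fin w → VT),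
    ∃ (b : Body A w) (e : VT ≃ Fin b.n),
      BodyForm tr b {x | ∃ y ∈ F, x = ((e y.1.1, y.1.2), (e y.2.1, y.2.2))}
        (fun j => e (l1 j)) (fun j => e (l2 j)) ∧ b.Simple ∧
      b.size ≤ bsz (Fintype.card VT) (Fintype.card Q) w ∧
      ∀ (G : SimpleGraph VT) (k : ℕ),
        (∀ x s y s', ((x, s), (y, s')) ∈ F → x ≠ y → G.Adj x y) →
        (∀ j, l1 j ≠ l2 j → G.Adj (l1 j) (l2 j)) → TreeWidthLE G k →
        TreeWidthLE b.graph k

def U_q5_unfold : Prop :=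
  ∀ {A Q : Type} (tr : Q → A × Bool → Q → Prop) {c : ℕ} (b : Body A c)
    (Fb : Set ((Fin b.n × Q) × (Fin b.n × Q))) (l1 l2 : Fin c → Fin b.n)
    (hb : BodyForm tr b Fb l1 l2) (sub : Fin c → RQ A) (nn : ℕ)
    (hs : ∀ j, IsFQ tr nn (sub j)) (N : ℕ) (hN : b.n + c * nn ≤ N),
    (∀ p q, IsFQ tr N (RQ.cq c b sub p q)) ∧
    ∀ (r : ℕ) (out : Fin r → Fin b.n),
      0 < b.n → ∃ F o, IsFQr tr N (⟨c, b, sub, out⟩ : CRQ A r) F o

def U_q6_mono : Prop :=
  ∀ {A V V' : Type} (E : V → A → V → Prop) (E' : V' → A → V' → Prop) (h : V → V')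
    (hh : ∀ u a v, E u a v → E' (h u) a (h v)),
    (∀ (ω : RQ A) (u v : V), ω.Sat E u v → ω.Sat E' (h u) (h v)) ∧
    ∀ (r : ℕ) (t : CRQ A r) (z : Fin r → V), t.Sat E z → t.Sat E' (fun i => h (z i))

def U_e1_exp : Prop :=
  ∀ {A : Type} (k : ℕ) (hk : 1 ≤ k) (ω : RQ A) (hω : ω.Width k) {V : Type}
    (E : V → A → V → Prop) (u v : V) (h : ω.Sat E u v),
    ∃ T : Term A, T.Width k ∧ T.Sat E u v ∧
      ∀ (V' : Type) (E' : V' → A → V' → Prop) (u' v' : V'), T.Sat E' u' v' → ω.Sat E' u' v'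

def U_e2_top : Prop :=
  ∀ {A : Type} (k : ℕ) (hk : 1 ≤ k) {r : ℕ} (t : CRQ A r) (ht : t.Width k) {V : Type}
    (E : V → A → V → Prop) (z : Fin r → V) (h : t.Sat E z) (hV : Nonempty V),
    ∃ (n m : ℕ) (src tgt : Fin m → Fin n) (ch : Fin m → Term A) (_ : Fin n) (out : Fin r → Fin n),
      TreeWidthLE (torso src tgt) k ∧ (∀ i, (ch i).Width k) ∧
      (∃ μ : Fin n → V, (∀ i, (ch i).Sat E (μ (src i)) (μ (tgt i))) ∧ ∀ j, μ (out j) = z j) ∧
      ∀ (V' : Type) (E' : V' → A → V' → Prop) (μ' : Fin n → V'),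
        (∀ i, (ch i).Sat E' (μ' (src i)) (μ' (tgt i))) → t.Sat E' (fun j => μ' (out j))

def U_s1_symm : Prop :=
  ∀ {A : Type} (T : Term A),
    Symm T.stp

def U_s2_fin : Prop :=
  ∀ {A : Type} (T : Term A),
    Finite T.Pos

def U_s3_id : Prop :=
  ∀ {A : Type} (T : Term A),
    Occ T.stp T id

def U_s4_child : Prop :=
  ∀ {A P : Type} (gs : P → Option (A × Bool) → P → Prop) {n m : ℕ}
    {src tgt : Fin m → Fin n} {ch : Fin m → Term A} {p q : Fin n}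
    {ι : (Term.node n m src tgt ch p q).Pos → P}
    (h : Occ gs (Term.node n m src tgt ch p q) ι) (i : Fin m),
    Occ gs (ch i) (fun x => ι (Sum.inr ⟨i, x⟩))

def U_s5_lift : Prop :=
  ∀ {A P Q : Type} (gs : P → Option (A × Bool) → P → Prop) (hs : Symm gs)
    (tr : Q → A × Bool → Q → Prop) (x y : P) (s s' : Q),
    rho gs tr (x, s) (y, s') ↔ Reach (canon gs) tr (cl gs x, s) (cl gs y, s')

def U_s6_sat : Prop :=
  ∀ {A P : Type} (gs : P → Option (A × Bool) → P → Prop) (T : Term A)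
    (ι : T.Pos → P) (h : Occ gs T ι),
    T.Sat (canon gs) (cl gs (ι (T.pt false))) (cl gs (ι (T.pt true)))

def U_s7_node : Prop :=
  ∀ {A P : Type} (gs : P → Option (A × Bool) → P → Prop) {n m : ℕ}
    {src tgt : Fin m → Fin n} {ch : Fin m → Term A} {p q : Fin n}
    {ι : (Term.node n m src tgt ch p q).Pos → P}
    (h : Occ gs (Term.node n m src tgt ch p q) ι) (i : Fin m) (c : Bool),
    gs (ι (Sum.inl (if c then tgt i else src i))) none (ι (Sum.inr ⟨i, (ch i).pt c⟩)) ∧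
    gs (ι (Sum.inr ⟨i, (ch i).pt c⟩)) none (ι (Sum.inl (if c then tgt i else src i))) ∧
    cl gs (ι (Sum.inr ⟨i, (ch i).pt c⟩)) = cl gs (ι (Sum.inl (if c then tgt i else src i)))

def U_s8_hom : Prop :=
  ∀ {A V : Type} {n m : ℕ} (src tgt : Fin m → Fin n) (ch : Fin m → Term A)
    (p q : Fin n) (E : V → A → V → Prop) (μ : Fin n → V)
    (h : ∀ i, (ch i).Sat E (μ (src i)) (μ (tgt i))),
    ∃ φ : Cv (Term.node n m src tgt ch p q).stp → V,
      (∀ v, φ (cl _ (Sum.inl v)) = μ v) ∧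
      ∀ x a y, canon (Term.node n m src tgt ch p q).stp x a y → E (φ x) a (φ y)

def U_s9_exit : Prop :=
  ∀ {A P Q : Type} (gs : P → Option (A × Bool) → P → Prop) (hs : Symm gs)
    (tr : Q → A × Bool → Q → Prop) (T : Term A) (ι : T.Pos → P) (h : Occ gs T ι) (x y : P)
    (hx : x ∈ Set.range ι) (hy : y ∉ Set.range ι),
    Sep gs tr (fun c => ι (T.pt c)) x y

/-- Reachability between torso variables is generated by the pairs of attachment variables
of the children and the pairs of ports. -/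
def U_s10_torso : Prop :=
  ∀ {A P Q : Type} (gs : P → Option (A × Bool) → P → Prop) (hs : Symm gs)
    (tr : Q → A × Bool → Q → Prop) {n m : ℕ}
    {src tgt : Fin m → Fin n} {ch : Fin m → Term A} {p q : Fin n}
    {ι : (Term.node n m src tgt ch p q).Pos → P}
    (h : Occ gs (Term.node n m src tgt ch p q) ι) (v v' : Fin n) (s s' : Q)
    (hr : rho gs tr (ι (Sum.inl v), s) (ι (Sum.inl v'), s')),
    ReflTransGen (TStep src tgt (rho gs tr) (fun v => ι (Sum.inl v)) p q) (v, s) (v', s')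

/-- Delete an unmarked bag without children. -/
def U_f1_leaf : Prop :=
  ∀ {P Q J : Type} {κ : ℕ} (ρ : P × Q → P × Q → Prop)
    (hρ : ∀ x y z, ρ x y → ρ y z → ρ x z) (hρr : ∀ x, ρ x x)
    (g : J → Fin κ → P) (ja jb : J) (la lb : Fin κ) (F : FS P κ)
    (mk : J → F.N) (hg : ∀ j, F.f (mk j) = g j)
    (hG : ∀ j j' l l' s s', ρ (g j l, s) (g j' l', s') →
    F.Gen ρ (mk ja, la) (mk jb, lb) ((mk j, l), s) ((mk j', l'), s'))
    (z : F.N) (hz : ∀ j, mk j ≠ z) (hc : ∀ x, F.par x ≠ some z),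
    ∃ F' : FS P κ, Sim ρ g ja jb la lb F' ∧ F'.size < F.size

/-- Delete an unmarked root with exactly one child. -/
def U_f2_root : Prop :=
  ∀ {P Q J : Type} {κ : ℕ} (ρ : P × Q → P × Q → Prop)
    (hρ : ∀ x y z, ρ x y → ρ y z → ρ x z) (hρr : ∀ x, ρ x x)
    (g : J → Fin κ → P) (ja jb : J) (la lb : Fin κ) (F : FS P κ)
    (mk : J → F.N) (hg : ∀ j, F.f (mk j) = g j)
    (hG : ∀ j j' l l' s s', ρ (g j l, s) (g j' l', s') →
    F.Gen ρ (mk ja, la) (mk jb, lb) ((mk j, l), s) ((mk j', l'), s'))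
    (z c : F.N) (hz : ∀ j, mk j ≠ z) (hzr : F.par z = none)
    (hc : ∀ x, F.par x = some z ↔ x = c),
    ∃ F' : FS P κ, Sim ρ g ja jb la lb F' ∧ F'.size < F.size

/-- Monotone normal form of walks through a chain, downwards. `z 0` is the top. -/
def U_f3a_down : Prop :=
  ∀ {P Q S : Type} (ρ : P × Q → P × Q → Prop)
    (hρ : ∀ x y z, ρ x y → ρ y z → ρ x z) (hρr : ∀ x, ρ x x)
    (fz : ℕ → S → P) (lk : ℕ → S → S → Prop) (l0 : S) (s0 : Q) (n : ℕ)
    (l' : S) (s' : Q)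
    (h : ReflTransGen (fun a b : (ℕ × S) × Q => ρ (fz a.1.1 a.1.2, a.2) (fz b.1.1 b.1.2, b.2) ∧
    (a.1.1 = b.1.1 ∨ (b.1.1 = a.1.1 + 1 ∧ lk b.1.1 b.1.2 a.1.2) ∨
    (a.1.1 = b.1.1 + 1 ∧ lk a.1.1 a.1.2 b.1.2))) ((0, l0), s0) ((n, l'), s')),
    ∃ (m p : ℕ → S) (s t : ℕ → Q), m 0 = l0 ∧ t 0 = s0 ∧
      (∀ i, i < n → ρ (fz i (m i), t i) (fz i (p (i + 1)), s (i + 1)) ∧
        lk (i + 1) (m (i + 1)) (p (i + 1)) ∧
        ρ (fz i (p (i + 1)), s (i + 1)) (fz (i + 1) (m (i + 1)), t (i + 1))) ∧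
      ρ (fz n (m n), t n) (fz n l', s')

/-- Cut a long chain. -/
def U_f3_chain : Prop :=
  ∀ {P Q J : Type} [Fintype Q] {κ : ℕ} (ρ : P × Q → P × Q → Prop)
    (hρ : ∀ x y z, ρ x y → ρ y z → ρ x z) (hρr : ∀ x, ρ x x)
    (g : J → Fin κ → P) (ja jb : J) (la lb : Fin κ)
    (F : FS P κ) (mk : J → F.N) (hg : ∀ j, F.f (mk j) = g j)
    (hG : ∀ j j' l l' s s', ρ (g j l, s) (g j' l', s') →
    F.Gen ρ (mk ja, la) (mk jb, lb) ((mk j, l), s) ((mk j', l'), s'))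
    (L : ℕ) (hL : κ ^ (2 * (κ * Fintype.card Q) ^ 2) < L) (z : ℕ → F.N)
    (hp : ∀ i ≤ L, F.par (z (i + 1)) = some (z i))
    (hz : ∀ i, 1 ≤ i → i ≤ L → ∀ j, mk j ≠ z i)
    (hc : ∀ i, 1 ≤ i → i ≤ L → ∀ x, F.par x = some (z i) → x = z (i + 1)),
    ∃ F' : FS P κ, Sim ρ g ja jb la lb F' ∧ F'.size < F.size

/-- Combinatorial bound for rooted forests. -/
def U_f4_bound : Prop :=
  ∀ {N : Type} [Fintype N] (par : N → Option N) (rk : N → ℕ)
    (hrk : ∀ x y, par x = some y → rk y < rk x) (M : Finset N) (K : ℕ)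
    (h1 : ∀ x ∉ M, ∃ y, par y = some x)
    (h2 : ∀ x ∉ M, par x = none → ∀ c, ¬ ∀ y, par y = some x ↔ y = c)
    (h3 : ∀ (L : ℕ) (z : ℕ → N), (∀ i ≤ L, par (z (i + 1)) = some (z i)) →
    (∀ i, 1 ≤ i → i ≤ L → z i ∉ M) →
    (∀ i, 1 ≤ i → i ≤ L → ∀ x, par x = some (z i) → x = z (i + 1)) → L ≤ K),
    Fintype.card N ≤ 2 * M.card * (K + 1)

def U_f5_min : Prop :=
  ∀ {P Q J : Type} [Fintype Q] [Fintype J] {κ : ℕ} (ρ : P × Q → P × Q → Prop)
    (hρ : ∀ x y z, ρ x y → ρ y z → ρ x z) (hρr : ∀ x, ρ x x)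
    (g : J → Fin κ → P) (ja jb : J) (la lb : Fin κ)
    (F : FS P κ) (hF : Sim ρ g ja jb la lb F),
    ∃ F' : FS P κ, Sim ρ g ja jb la lb F' ∧
      F'.size ≤ NB (Fintype.card J) κ (Fintype.card Q)

/-- The graph of a parent function is a tree. -/
def U_d0_tree : Prop :=
  ∀ {N : Type} (r : N) (pa : N → N) (rk : N → ℕ)
    (h : ∀ x, x ≠ r → rk (pa x) < rk x),
    (SimpleGraph.fromRel fun x y : N => x ≠ r ∧ pa x = y).IsTree

def U_d1_root : Prop :=
  ∀ {V : Type} [Finite V] (G : SimpleGraph V) (k : ℕ) (h : TreeWidthLE G k),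
    Nonempty (RD G k)

def U_d2_normal : Prop :=
  ∀ {V : Type} (G : SimpleGraph V) (k : ℕ) (h : Nonempty (RD G k)),
    ∃ D : RD G k, ∀ x y, D.par x = some y → ¬ D.B x ⊆ D.B y

def U_d3_unroot : Prop :=
  ∀ {V : Type} (G : SimpleGraph V) (k : ℕ) (h : Nonempty (RD G k)),
    TreeWidthLE G k

/-- Sliding. -/
def U_d4_width : Prop :=
  ∀ {P : Type} (k : ℕ) (F : FS P (k + 1)),
    TreeWidthLE F.graph k

/-- The structure of a tree decomposition. -/
def U_d5_start : Prop :=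
  ∀ {P Q J : Type} (k : ℕ) {n m : ℕ} (src tgt : Fin m → Fin n)
    (hw : TreeWidthLE (torso src tgt) k) (ρ : P × Q → P × Q → Prop)
    (hρ : ∀ x y z, ρ x y → ρ y z → ρ x z) (hρr : ∀ x, ρ x x) (tp : Fin n → P) (p q : Fin n)
    (hgen : ∀ v v' s s', ρ (tp v, s) (tp v', s') →
    ReflTransGen (TStep src tgt ρ tp p q) (v, s) (v', s'))
    (pr : J → Fin n × Fin n) (hpr : ∀ j, (pr j).1 = (pr j).2 ∨ ∃ i, pr j = (src i, tgt i))
    (ja jb : J) (ha : pr ja = (p, p)) (hb : pr jb = (q, q)),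
    ∃ (g : J → Fin (k + 1) → P) (e e' : J → Fin (k + 1)),
      (∀ j, g j (e j) = tp (pr j).1 ∧ g j (e' j) = tp (pr j).2) ∧
      (∀ j, (pr j).1 = (pr j).2 → e j = e' j) ∧
      ∃ F : FS P (k + 1), Sim ρ g ja jb (e ja) (e jb) F

def U_d6_small : Prop :=
  ∀ {V : Type} [Fintype V] (G : SimpleGraph V) (k : ℕ)
    (h : Fintype.card V ≤ k + 1),
    TreeWidthLE G k

def U_d7_path : Prop :=
  ∀ {n k : ℕ} (hk : 1 ≤ k),
    TreeWidthLE (torso (fun i : Fin n => i.castSucc) (fun i : Fin n => i.succ)) k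

/-- Graphs of tree-width 1 are forests. -/
def U_d8_forest : Prop :=
  ∀ {V : Type} [Finite V] (G : SimpleGraph V) (h : TreeWidthLE G 1),
    G.IsAcyclic

def U_d9_mono : Prop :=
  ∀ {V V' : Type} [Finite V'] (G : SimpleGraph V) (G' : SimpleGraph V')
    (φ : V' ↪ V) (h : ∀ x y, G'.Adj x y → G.Adj (φ x) (φ y)) (k k' : ℕ) (hk : k ≤ k')
    (hG : TreeWidthLE G k),
    TreeWidthLE G' k'

def U_a0_mono : Prop :=
  ∀ {A P Q L : Type} (gs : P → Option (A × Bool) → P → Prop)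
    (tr : Q → A × Bool → Q → Prop) (k bd nn bd' nn' : ℕ) (h1 : bd ≤ bd') (h2 : nn ≤ nn')
    (pos : L → P) (pp : Bool → P) (δ : RQ A) (h : Good gs tr k bd nn pos pp δ),
    Good gs tr k bd' nn' pos pp δ

def U_a2_descend : Prop :=
  ∀ {A P Q : Type} (k : ℕ) (gs : P → Option (A × Bool) → P → Prop)
    (hs : Symm gs) (tr : Q → A × Bool → Q → Prop) (L : Type) [Nonempty L]
    (T : Term A) (hT : T.Width k) (ι : T.Pos → P) (ho : Occ gs T ι) (lab : L → T.Pos),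
    ∃ (T' : Term A) (ι' : T'.Pos → P) (lab' : L → T'.Pos), T'.Width k ∧ Occ gs T' ι' ∧
      (∀ a, ι' (lab' a) = ι (lab a)) ∧ Branch T' lab' ∧
      ∀ a c, Sep gs tr (fun c => ι' (T'.pt c)) (ι (lab a)) (ι (T.pt c))

def U_a3_wrap2 : Prop :=
  ∀ {A P Q L : Type} [Fintype Q] (k : ℕ) (hk : 2 ≤ k)
    (gs : P → Option (A × Bool) → P → Prop) (hs : Symm gs) (tr : Q → A × Bool → Q → Prop)
    (pos : L → P) (pp pp' : Bool → P) (h : ∀ a c, Sep gs tr pp' (pos a) (pp c))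
    (bd nn : ℕ) (δ' : RQ A) (hδ : Good gs tr k bd nn pos pp' δ'),
    ∃ δ : RQ A, Good gs tr k (1 + bsz 4 (Fintype.card Q) 1 + bd) (4 + nn) pos pp δ

def U_a4_trivial : Prop :=
  ∀ {A P Q L : Type} (k : ℕ) (hk : 1 ≤ k)
    (gs : P → Option (A × Bool) → P → Prop) (tr : Q → A × Bool → Q → Prop)
    (pos : L → P) (pp : Bool → P) (h : ∀ a, ∃ c, pos a = pp c),
    ∃ δ : RQ A, Good gs tr k 3 2 pos pp δ

def U_w2_wrap : Prop :=
  ∀ {A P Q : Type} [Fintype Q] (k : ℕ) (hk : 2 ≤ k)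
    (gs : P → Option (A × Bool) → P → Prop) (hs : Symm gs) (tr : Q → A × Bool → Q → Prop),
    Wrap gs tr k

def U_g1_loop : Prop :=
  ∀ {A P Q L : Type} [Fintype Q] (k : ℕ) (hk : 1 ≤ k)
    (gs : P → Option (A × Bool) → P → Prop) (hs : Symm gs) (tr : Q → A × Bool → Q → Prop)
    (pos : L → P) (pp pp' : Bool → P) (c0 : P) (h1 : ∀ a, Sep gs tr pp' (pos a) c0)
    (h2 : ∀ a c, Sep gs tr (fun _ : Unit => c0) (pos a) (pp c))
    (bd nn : ℕ) (δ' : RQ A) (hδ : Good gs tr k bd nn pos pp' δ'),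
    ∃ δ : RQ A, Good gs tr k (2 + bsz 3 (Fintype.card Q) 1 + bsz 4 (Fintype.card Q) 1 + bd)
      (7 + nn) pos pp δ

/-- Shorten a ladder. -/
def U_g2_ladder : Prop :=
  ∀ {P Q : Type} [Fintype Q] (ρ : P × Q → P × Q → Prop)
    (hρ : ∀ x y z, ρ x y → ρ y z → ρ x z) (hρr : ∀ x, ρ x x) (L : ℕ) (pr : ℕ → Bool → P)
    (σ : ℕ → Bool)
    (h : ∀ (u v : ℕ) (c c' : Bool) (s s' : Q), (u = 0 ∨ u = L) → (v = 0 ∨ v = L) →
    ρ (pr u c, s) (pr v c', s') → ReflTransGen (LS ρ L pr σ) ((u, c), s) ((v, c'), s')),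
    ∃ (L' : ℕ) (pr' : ℕ → Bool → P) (σ' : ℕ → Bool), L' ≤ KW (Fintype.card Q) ∧
      pr' 0 = pr 0 ∧ pr' L' = pr L ∧
      ∀ (u v : ℕ) (c c' : Bool) (s s' : Q), (u = 0 ∨ u = L') → (v = 0 ∨ v = L') →
        ρ (pr' u c, s) (pr' v c', s') →
        ReflTransGen (LS ρ L' pr' σ') ((u, c), s) ((v, c'), s')

/-- Realise a ladder by nested queries. -/
def U_g3_realise : Prop :=
  ∀ {A P Q L : Type} [Fintype Q] (k : ℕ) (hk : 1 ≤ k)
    (gs : P → Option (A × Bool) → P → Prop) (hs : Symm gs) (tr : Q → A × Bool → Q → Prop)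
    (pos : L → P) (N : ℕ) (pr : ℕ → Bool → P) (σ : ℕ → Bool)
    (h : ∀ (u v : ℕ) (c c' : Bool) (s s' : Q), (u = 0 ∨ u = N) → (v = 0 ∨ v = N) →
    rho gs tr (pr u c, s) (pr v c', s') →
    ReflTransGen (LS (rho gs tr) N pr σ) ((u, c), s) ((v, c'), s'))
    (hsep : ∀ a c, Sep gs tr (pr N) (pos a) (pr 0 c))
    (bd nn : ℕ) (δ' : RQ A) (hδ : Good gs tr k bd nn pos (pr N) δ'),
    ∃ δ : RQ A, Good gs tr k (N * (1 + bsz 4 (Fintype.card Q) 1) + bd) (4 * N + nn) pos (pr 0) δ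

/-- One level of a chain in a term of width one: either one port of the child separates the
child from the ports, or the level is a rung of a ladder. -/
def U_g4_level : Prop :=
  ∀ {A P Q : Type} (gs : P → Option (A × Bool) → P → Prop) (hs : Symm gs)
    (tr : Q → A × Bool → Q → Prop) {n m : ℕ}
    {src tgt : Fin m → Fin n} {ch : Fin m → Term A} {p q : Fin n}
    (hw : TreeWidthLE (torso src tgt) 1)
    {ι : (Term.node n m src tgt ch p q).Pos → P}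
    (ho : Occ gs (Term.node n m src tgt ch p q) ι) (i : Fin m),
    (∃ c : Bool, ∀ (x : (ch i).Pos) (c' : Bool),
      Sep gs tr (fun _ : Unit => ι (Sum.inr ⟨i, (ch i).pt c⟩)) (ι (Sum.inr ⟨i, x⟩))
        (ι ((Term.node n m src tgt ch p q).pt c'))) ∨
    ∃ (pr : ℕ → Bool → P) (σ : ℕ → Bool),
      (∀ c, pr 0 c = ι ((Term.node n m src tgt ch p q).pt c)) ∧
      (∀ c, pr 1 c = ι (Sum.inr ⟨i, (ch i).pt c⟩)) ∧
      ∀ u v c c' s s', u ≤ 1 → v ≤ 1 → rho gs tr (pr u c, s) (pr v c', s') →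
        ReflTransGen (LS (rho gs tr) 1 pr σ) ((u, c), s) ((v, c'), s')

def U_w1_wrap : Prop :=
  ∀ {A P Q : Type} [Fintype Q]
    (gs : P → Option (A × Bool) → P → Prop) (hs : Symm gs) (tr : Q → A × Bool → Q → Prop),
    Wrap gs tr 1

def U_a1_flat : Prop :=
  ∀ {A P Q : Type} [Fintype Q] (k : ℕ) (gs : P → Option (A × Bool) → P → Prop)
    (hs : Symm gs) (tr : Q → A × Bool → Q → Prop) {n m : ℕ}
    {src tgt : Fin m → Fin n} {ch : Fin m → Term A} {p q : Fin n}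
    (hw : TreeWidthLE (torso src tgt) k)
    {ι : (Term.node n m src tgt ch p q).Pos → P}
    (ho : Occ gs (Term.node n m src tgt ch p q) ι) (L : Type) [Fintype L]
    (lab : L → (Term.node n m src tgt ch p q).Pos) (bd nn : ℕ)
    (hch : ∀ i, (∃ a x, lab a = Sum.inr ⟨i, x⟩) →
    ∃ δ : RQ A, Good gs tr k bd nn
    (fun a : {a : L // ∃ x, lab a = Sum.inr ⟨i, x⟩} => ι (lab a.1))
    (fun b => ι (Sum.inr ⟨i, (ch i).pt b⟩)) δ),
    ∃ (w : ℕ) (b : Body A w) (sub : Fin w → RQ A)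
      (Fb : Set ((Fin b.n × Q) × (Fin b.n × Q))) (l1 l2 : Fin w → Fin b.n)
      (pv : Bool → Fin b.n) (lv : L → Fin b.n),
      w ≤ Fintype.card L ∧
      b.size ≤ bsz (NB (Fintype.card L + 2) (k + 1) (Fintype.card Q) * (k + 1)) (Fintype.card Q) w ∧
      b.n ≤ NB (Fintype.card L + 2) (k + 1) (Fintype.card Q) * (k + 1) ∧
      TreeWidthLE b.graph k ∧ b.Simple ∧
      (∀ j, (sub j).Width k ∧ (sub j).Simple ∧ (sub j).size ≤ bd ∧ IsFQ tr nn (sub j)) ∧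
      BodyForm tr b Fb l1 l2 ∧
      (p = q → pv false = pv true) ∧
      (∃ μ : Fin b.n → Cv gs, b.Holds (canon gs) (fun j => (sub j).Sat (canon gs)) μ ∧
        (∀ c, μ (pv c) = cl gs (ι ((Term.node n m src tgt ch p q).pt c))) ∧
        ∀ a x, lab a = Sum.inl x → μ (lv a) = cl gs (ι (Sum.inl x))) ∧
      ∀ (V : Type) (E : V → A → V → Prop) (μ : Fin b.n → V),
        b.Holds E (fun j => (sub j).Sat E) μ →
        (∀ c s s', rho gs tr (ι ((Term.node n m src tgt ch p q).pt c), s)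
          (ι ((Term.node n m src tgt ch p q).pt c), s') →
          Reach E tr (μ (pv c), s) (μ (pv c), s')) ∧
        (RP (rho gs tr) (fun c => ι ((Term.node n m src tgt ch p q).pt c)) E tr
          (fun c => μ (pv c)) →
          ∃ ν : L → V, RP (rho gs tr)
            (Sum.elim (fun a => ι (lab a)) (fun c => ι ((Term.node n m src tgt ch p q).pt c)))
            E tr (Sum.elim ν (fun c => μ (pv c))) ∧
            ∀ a x, lab a = Sum.inl x → ν a = μ (lv a))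

def U_a5_main : Prop :=
  ∀ {A P Q : Type} [Fintype Q] (k : ℕ) (hk : 1 ≤ k)
    (gs : P → Option (A × Bool) → P → Prop) (hs : Symm gs) (tr : Q → A × Bool → Q → Prop)
    (hwr : Wrap gs tr k)
    (L : Type) [Fintype L] (T : Term A) (hT : T.Width k) (ι : T.Pos → P) (ho : Occ gs T ι)
    (lab : L → T.Pos),
    ∃ δ : RQ A, Good gs tr k (SB k (Fintype.card Q) (Fintype.card L))
      (SN k (Fintype.card Q) (Fintype.card L)) (fun a => ι (lab a)) (fun c => ι (T.pt c)) δ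

/-- The top level. -/
def U_t1_top : Prop :=
  ∀ {A Q : Type} [Fintype Q] (k : ℕ) (hk : 1 ≤ k) (tr : Q → A × Bool → Q → Prop)
    {n m r : ℕ} (src tgt : Fin m → Fin n) (ch : Fin m → Term A) (p : Fin n)
    (hwr : Wrap (Term.node n m src tgt ch p p).stp tr k)
    (hw : TreeWidthLE (torso src tgt) k) (hch : ∀ i, (ch i).Width k) (out : Fin r → Fin n)
    (L : Type) [Fintype L] (o : Fin r → L) (μ : L → Cv (Term.node n m src tgt ch p p).stp)
    (hμ : ∀ j, μ (o j) = cl _ (Sum.inl (out j))) (N : ℕ)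
    (hN : TN k (Fintype.card Q) (Fintype.card L) ≤ N),
    ∃ t : CRQ A r, 0 < t.b.n ∧ t.Width k ∧ t.Simple ∧
      t.size ≤ TB k (Fintype.card Q) (Fintype.card L) ∧
      (∃ F o', IsFQr tr N t F o') ∧
      t.Sat (canon (Term.node n m src tgt ch p p).stp) (fun j => cl _ (Sum.inl (out j))) ∧
      ∀ (V : Type) (E : V → A → V → Prop) (z : Fin r → V), t.Sat E z →
        ∃ ν : L → V, (∀ a b s s', Reach (canon (Term.node n m src tgt ch p p).stp) tr (μ a, s)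
          (μ b, s') → Reach E tr (ν a, s) (ν b, s')) ∧ ∀ j, ν (o j) = z j

/-- Equalities between variables can be removed. -/
def U_q0_eq : Prop :=
  ∀ {A Q W I : Type} [Fintype W] [Nonempty W] (tr : Q → A × Bool → Q → Prop)
    (F : Set ((W × Q) × (W × Q))) (R : W → W → Prop) (g : I → W) (N : ℕ)
    (hN : Fintype.card W ≤ N),
    ∃ (F' : Set ((Fin N × Q) × (Fin N × Q))) (π : W → Fin N),
      ∀ (V : Type) (E : V → A → V → Prop) (z : I → V),
        (∃ μ : W → V, (∀ e ∈ F, Reach E tr (μ e.1.1, e.1.2) (μ e.2.1, e.2.2)) ∧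
          (∀ x y, R x y → μ x = μ y) ∧ ∀ i, μ (g i) = z i) ↔
        ∃ μ : Fin N → V, (∀ e ∈ F', Reach E tr (μ e.1.1, e.1.2) (μ e.2.1, e.2.2)) ∧
          ∀ i, μ (π (g i)) = z i

/-- Change of the set of states and of the number of variables. -/
def U_u0_pad : Prop :=
  ∀ {A Q Q' : Type} (j : Q → Q') (hj : Function.Injective j) {n n' r : ℕ}
    (hn : 0 < n) (hnn : n ≤ n') (tr : Q → A × Bool → Q → Prop) (tr' : Q' → A × Bool → Q' → Prop)
    (h1 : ∀ s l t, tr s l t → tr' (j s) l (j t))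
    (h2 : ∀ s l x, tr' (j s) l x → ∃ t, x = j t ∧ tr s l t)
    (U : Set (Set ((Fin n × Q) × (Fin n × Q)) × (Fin r → Fin n))),
    ∃ U' : Set (Set ((Fin n' × Q') × (Fin n' × Q')) × (Fin r → Fin n')),
      ∀ (V : Type) (E : V → A → V → Prop) (z : Fin r → V), USat tr U E z ↔ USat tr' U' E z

/-- Simple binary queries are unions of fact queries. -/
def U_u1_simple : Prop :=
  ∀ {A : Type} (ω : RQ A) (hs : ω.Simple),
    ∃ (tr : Fin ω.size → A × Bool → Fin ω.size → Prop)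
      (U : Set (Set ((Fin (2 ^ ω.size) × Fin ω.size) × (Fin (2 ^ ω.size) × Fin ω.size)) ×
        (Fin 2 → Fin (2 ^ ω.size)))),
      ∀ (V : Type) (E : V → A → V → Prop) (u v : V), ω.Sat E u v ↔ USat tr U E ![u, v]

def U_u2_simple : Prop :=
  ∀ {A : Type} {r : ℕ} (Γ : Query A r) (hs : Γ.Simple),
    ∃ (tr : Fin Γ.size → A × Bool → Fin Γ.size → Prop)
      (U : Set (Set ((Fin (2 ^ Γ.size) × Fin Γ.size) × (Fin (2 ^ Γ.size) × Fin Γ.size)) ×
        (Fin r → Fin (2 ^ Γ.size)))),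
      ∀ (V : Type) [Nonempty V] (E : V → A → V → Prop) (z : Fin r → V),
        Γ.Sat E z ↔ USat tr U E z

/-- Exchange of a part with two ports. -/
def U_u3_replace : Prop :=
  ∀ {A C H H' Q : Type} (gC : C → Option (A × Bool) → C → Prop)
    (gH : H → Option (A × Bool) → H → Prop) (gH' : H' → Option (A × Bool) → H' → Prop)
    (hC : Symm gC) (hH : Symm gH) (hH' : Symm gH') (c : Bool → C) (h : Bool → H) (h' : Bool → H')
    (tr : Q → A × Bool → Q → Prop) {n r : ℕ} (hLT : LT n gH h tr ⊆ LT n gH' h' tr)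
    (U : Set (Set ((Fin n × Q) × (Fin n × Q)) × (Fin r → Fin n))) (z : Fin r → C)
    (hs : USat tr U (canon (glue gC gH c h)) (fun i => cl _ (Sum.inl (z i)))),
    USat tr U (canon (glue gC gH' c h')) (fun i => cl _ (Sum.inl (z i)))

/-- Homomorphisms preserve the satisfaction of unions of fact queries. -/
def U_u4_mono : Prop :=
  ∀ {A Q V V' : Type} {n r : ℕ} (tr : Q → A × Bool → Q → Prop)
    (U : Set (Set ((Fin n × Q) × (Fin n × Q)) × (Fin r → Fin n)))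
    (E : V → A → V → Prop) (E' : V' → A → V' → Prop) (h : V → V')
    (hh : ∀ u a v, E u a v → E' (h u) a (h v)) (z : Fin r → V) (hs : USat tr U E z),
    USat tr U E' (fun i => h (z i))

/-- Splitting one path. -/
def U_u5_split : Prop :=
  ∀ {A I : Type} [DecidableEq I] {n : ℕ} (x y : I → Fin n)
    (w : I → List (A × Bool)) (e0 : I) (u v : List (A × Bool)),
    let g1 := ws x y (Function.update w e0 (u ++ v)) (fun _ => True)
    let g2 := glue (ws x y (Function.update w e0 v) (fun e => e ≠ e0)) (pw u)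
      (fun b => if b then Sum.inr (e0, 0) else Sum.inl (x e0)) (pe u)
    (∃ φ : Cv g1 → Cv g2, (∀ i, φ (cl g1 (Sum.inl i)) = cl g2 (Sum.inl (Sum.inl i))) ∧
      ∀ p a q, canon g1 p a q → canon g2 (φ p) a (φ q)) ∧
    ∃ ψ : Cv g2 → Cv g1, (∀ i, ψ (cl g2 (Sum.inl (Sum.inl i))) = cl g1 (Sum.inl i)) ∧
      ∀ p a q, canon g2 p a q → canon g1 (ψ p) a (ψ q)

/-- Runs give facts in the word system, and paths give homomorphisms. -/
def U_u6_ws : Prop :=
  ∀ {A I Q : Type} {n : ℕ} (x y : I → Fin n) (w : I → List (A × Bool)),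
    Symm (ws x y w (fun _ => True)) ∧
    (∀ (tr : Q → A × Bool → Q → Prop) (e : I) (s s' : Q), Run tr s (w e) s' →
      Reach (canon (ws x y w (fun _ => True))) tr (cl _ (Sum.inl (x e)), s)
        (cl _ (Sum.inl (y e)), s')) ∧
    (∀ (V : Type) (E : V → A → V → Prop) (μ : Fin n → V),
      (∀ e, Path E (μ (x e)) (w e) (μ (y e))) →
      Nonempty (Fin n) →
      ∃ φ : Cv (ws x y w (fun _ => True)) → V, (∀ i, φ (cl _ (Sum.inl i)) = μ i) ∧
        ∀ p a q, canon (ws x y w (fun _ => True)) p a q → E (φ p) a (φ q)) ∧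
    ∀ (tr : Q → A × Bool → Q → Prop) (V : Type) (E : V → A → V → Prop) (u v : V) (s s' : Q),
      Reach E tr (u, s) (v, s') ↔ ∃ w, Path E u w v ∧ Run tr s w s'

/-- The word system is equivalent to a small finite database. -/
def U_u7_fin : Prop :=
  ∀ {A I : Type} [Fintype I] {n : ℕ} (hn : 0 < n) (x y : I → Fin n)
    (w : I → List (A × Bool)),
    ∃ (V : Type) (_ : Fintype V) (E : V → A → V → Prop) (ι : Fin n → V),
      Fintype.card V ≤ n + ∑ e, ((w e).length + 1) ∧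
      (∃ φ : Cv (ws x y w (fun _ => True)) → V, (∀ i, φ (cl _ (Sum.inl i)) = ι i) ∧
        ∀ p a q, canon (ws x y w (fun _ => True)) p a q → E (φ p) a (φ q)) ∧
      ∃ ψ : V → Cv (ws x y w (fun _ => True)), (∀ i, ψ (ι i) = cl _ (Sum.inl i)) ∧
        ∀ p a q, E p a q → canon (ws x y w (fun _ => True)) (ψ p) a (ψ q)

/-- Small model property. -/
def U_u8_small : Prop :=
  ∀ {A Q1 Q2 V : Type} [Fintype Q1] [Fintype Q2] {n1 n2 r : ℕ}
    (tr1 : Q1 → A × Bool → Q1 → Prop) (tr2 : Q2 → A × Bool → Q2 → Prop)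
    (U1 : Set (Set ((Fin n1 × Q1) × (Fin n1 × Q1)) × (Fin r → Fin n1)))
    (U2 : Set (Set ((Fin n2 × Q2) × (Fin n2 × Q2)) × (Fin r → Fin n2)))
    (hn : 0 < n1) (E : V → A → V → Prop) (z : Fin r → V) (h1 : USat tr1 U1 E z)
    (h2 : ¬ USat tr2 U2 E z),
    ∃ (V' : Type) (_ : Fintype V') (E' : V' → A → V' → Prop) (z' : Fin r → V'),
      Fintype.card V' ≤ SM n1 (Fintype.card Q1) n2 (Fintype.card Q2) ∧
      USat tr1 U1 E' z' ∧ ¬ USat tr2 U2 E' z'

/-- The maximal under-approximation of a union of conjunctions of facts. -/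
def U_t2_approx : Prop :=
  ∀ {A Q : Type} [Fintype Q] (k : ℕ) (hk : 1 ≤ k) (r n : ℕ) (hn : 0 < n)
    (tr : Q → A × Bool → Q → Prop)
    (U : Set (Set ((Fin n × Q) × (Fin n × Q)) × (Fin r → Fin n))),
    ∃ Δ : Query A r, Δ.Width k ∧ Δ.Simple ∧ Δ.size ≤ BB k r n (Fintype.card Q) ∧
      (∀ t ∈ Δ, 0 < t.b.n) ∧
      (∀ (V : Type) (E : V → A → V → Prop) (z : Fin r → V), Δ.Sat E z → USat tr U E z) ∧
      ∀ Ω : Query A r, Ω.Width k →
        (∀ (V : Type) [Finite V] [Nonempty V] (E : V → A → V → Prop) (z : Fin r → V),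
          Ω.Sat E z → USat tr U E z) →
        ∀ (V : Type) [Nonempty V] (E : V → A → V → Prop) (z : Fin r → V),
          Ω.Sat E z → Δ.Sat E z

/-- The maximal under-approximation. -/
def U_t3_max : Prop :=
  ∀ {A : Type} (k : ℕ) (hk : 1 ≤ k) (r : ℕ) (Γ : Query A r) (hΓ : Γ.Simple),
    ∃ Δ : Query A r, Δ.Width k ∧ Δ.Simple ∧ Δ.size ≤ 1 + BB k r (2 ^ Γ.size) Γ.size ∧ Δ.Le Γ ∧
      ∀ Ω : Query A r, Ω.Width k → Ω.Le Γ → Ω.Le Δ

/-- Small model property for containment of simple queries. -/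
def U_t4_small : Prop :=
  ∀ {A : Type} {r : ℕ} (Γ Δ : Query A r) (hΓ : Γ.Simple) (hΔ : Δ.Simple)
    (h : ∀ (V : Type) [Fintype V],
    Fintype.card V ≤ SM (2 ^ Γ.size) Γ.size (2 ^ Δ.size) Δ.size →
    ∀ (E : V → A → V → Prop) (z : Fin r → V), Γ.Sat E z → Δ.Sat E z),
    Γ.Le Δ

/-- The bounds are primitive recursive. -/
def U_p1_prim : Prop :=
  ∀ (k r : ℕ),
    Primrec (fun s => 1 + BB k r (2 ^ s) s) ∧
    ∀ B : ℕ → ℕ, Primrec B → Primrec (fun s =>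
      SM (2 ^ s) s (2 ^ B s) (B s) + SM (2 ^ B s) (B s) (2 ^ s) s)

end Pool.Agent.H76.SW
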