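import Pool.Agent.H76.SW.U2c
import Pool.Agent.H48.SW.T3

/-!
The maximal under-approximation of a union of C2RPQs.
-/

namespace Pool.Agent.H76.SWU

open Relation Pool.Agent.H76.SW Pool.Agent.H48.SW

theorem t3c (h1 : U_t2_approx) (hq : U_q1_joint) (hp : U_u0_pad) (h3 : U_d6_small) {A : Type}
    (k : ℕ) (hk : 1 ≤ k) (r : ℕ) (Γ : Query A r) (hΓ : Γ.IsUC2RPQ) :
    ∃ Δ : Query A r, Δ.Width k ∧ Δ.Simple ∧ Δ.size ≤ 1 + BB k r (Γ.size + 1) (Γ.size + 1) ∧
      Δ.Le Γ ∧ ∀ Ω : Query A r, Ω.Width k → Ω.Le Γ → Ω.Le Δ := by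
  by_cases hz : ∃ t ∈ Γ, t.b.n = 0
  · obtain ⟨t, ht, hn⟩ := hz
    have hr : r = 0 := by
      rcases Nat.eq_zero_or_pos r with h | h
      · exact h
      · have hx := (t.out ⟨0, h⟩).isLt
        omega
    subst hr
    refine ⟨[crq0 A], ?_, ?_, ?_, ?_, ?_⟩
    · intro s hs
      rw [List.mem_singleton] at hs
      subst hs
      exact ⟨h3 (V := Fin 0) _ k (by rw [Fintype.card_fin]; omega), fun j => j.elim0⟩
    · intro s hs
      rw [List.mem_singleton] at hs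
      subst hs
      exact ⟨fun i => i.elim0, fun j => j.elim0⟩
    · have hsz : Query.size [crq0 A] = 1 := by
        simp [Query.size, CRQ.size, Body.size, crq0, body0]
      rw [hsz]
      omega
    · intro V _ E z _
      exact ⟨t, ht, sat_of_empty t hn E z⟩
    · intro Ω _ _ V _ E z _
      exact ⟨crq0 A, List.mem_singleton_self _, crq0_sat E z⟩
  · have hpos : ∀ t ∈ Γ, 0 < t.b.n := fun t ht =>
      Nat.pos_of_ne_zero (fun h => hz ⟨t, ht, h⟩)
    obtain ⟨tr, U, hU⟩ := u2c hq hp Γ hΓ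
    obtain ⟨Δ, hw, hs, hsz, hp, hle, hmax⟩ :=
      h1 k hk r (Γ.size + 1) (Nat.succ_pos _) tr U
    rw [Fintype.card_fin] at hsz
    have key : ∀ (Θ : Query A r), (∀ t ∈ Θ, 0 < t.b.n) → ∀ (V : Type) (E : V → A → V → Prop)
        (z : Fin r → V), Θ.Sat E z → Nonempty V := by
      intro Θ hΘ V E z hsat
      obtain ⟨t, ht, μ, _, _⟩ := hsat
      exact ⟨μ ⟨0, hΘ t ht⟩⟩
    refine ⟨Δ, hw, hs, le_trans hsz (Nat.le_add_left _ _), ?_, ?_⟩
    · intro V _ E z hsat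
      have hne : Nonempty V := key Δ hp V E z hsat
      exact (hU V E z).2 (hle V E z hsat)
    · intro Ω hΩ hΩΓ V _ E z hsat
      have hne : Nonempty V := key Γ hpos V E z (hΩΓ V E z hsat)
      exact hmax Ω hΩ (fun V' _ _ E' z' hs' => (hU V' E' z').1 (hΩΓ V' E' z' hs')) V E z hsat

end Pool.Agent.H76.SWU
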