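import Pool.Agent.H90.SW.U12

/-!
Unions of C2RPQs are unions of fact queries with few variables.
-/

namespace Pool.Agent.H76.SWU

open Relation Pool.Agent.H76.SW

/-- The union of a family of systems of states. -/
def jt2 {A J : Type} {Q : J → Type} (tr : (j : J) → Q j → A × Bool → Q j → Prop) :
    (Σ j, Q j) → A × Bool → (Σ j, Q j) → Prop :=
  fun x l y => ∃ j s t, x = ⟨j, s⟩ ∧ y = ⟨j, t⟩ ∧ tr j s l t

theorem crq_c (h2 : U_q1_joint) (h3 : U_u0_pad) {A J : Type} {r : ℕ} (T : J → CRQ A r)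
    (hT : ∀ j, (T j).c = 0) (N : ℕ) (hN : ∀ j, (T j).b.n ≤ N) (hN0 : 0 < N) (j : J) :
    ∃ U : Set (Set ((Fin N × (Σ j, Σ i, Fin ((T j).b.st i))) ×
        (Fin N × (Σ j, Σ i, Fin ((T j).b.st i)))) × (Fin r → Fin N)),
      ∀ (V : Type) [Nonempty V] (E : V → A → V → Prop) (z : Fin r → V),
        (T j).Sat E z ↔ USat (jt2 fun j => joint (T j).b.aut) U E z := by
  set t := T j with ht
  have hc : ∀ x : Fin t.c, False := by
    intro x
    have h5 := x.2
    have h6 : t.c = 0 := hT j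
    omega
  rcases Nat.eq_zero_or_pos t.b.n with h0 | hn
  · have hr : ∀ i : Fin r, False := fun i => absurd (t.out i).2 (by omega)
    have hm : ∀ i : Fin t.b.m, False := fun i => absurd (t.b.src i).2 (by omega)
    refine ⟨{(∅, fun i => (hr i).elim)}, fun V _ E z => ?_⟩
    constructor
    · intro _
      obtain ⟨v⟩ := ‹Nonempty V›
      exact ⟨_, rfl, fun _ => v, fun e he => absurd he (Set.notMem_empty _), fun i => (hr i).elim⟩
    · intro _
      exact ⟨fun x => absurd x.2 (by omega), fun i => (hm i).elim, fun i => (hr i).elim⟩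
  · obtain ⟨U', hU'⟩ := h3 (fun x => (⟨j, x⟩ : Σ j, Σ i, Fin ((T j).b.st i)))
      (fun x y h => eq_of_heq (Sigma.mk.inj_iff.1 h).2) hn (hN j) (joint (T j).b.aut)
      (jt2 fun j => joint (T j).b.aut) (fun a l b h => ⟨j, a, b, rfl, rfl, h⟩) (by
        rintro a l x ⟨j', a', b, h, h', h''⟩
        obtain ⟨h5, h6⟩ := Sigma.mk.inj_iff.1 h
        subst h5
        obtain rfl := eq_of_heq h6
        exact ⟨b, h', h''⟩)
      {f | ∃ S S' : (i : Fin t.b.m) → Fin (t.b.st i), (∀ i, S i ∈ (t.b.aut i).start) ∧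
        (∀ i, S' i ∈ (t.b.aut i).accept) ∧
        f = ({e | ∃ i, e = ((t.b.src i, ⟨i, S i⟩), (t.b.tgt i, ⟨i, S' i⟩))}, t.out)}
    refine ⟨U', fun V _ E z => ?_⟩
    rw [← hU']
    have hq : ∀ (i : Fin t.b.m) (u v : V),
        (∃ w ∈ (t.b.aut i).accepts, Path (ext E (fun j => (t.sub j).Sat E)) u w v) ↔
          ∃ s ∈ (t.b.aut i).start, ∃ s' ∈ (t.b.aut i).accept,
            Reach E (joint t.b.aut) (u, ⟨i, s⟩) (v, ⟨i, s'⟩) := by
      intro i u v
      refine h2 t.b.aut E i (fun j => (t.sub j).Sat E) ?_ u v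
      rintro w - ⟨l | l, b⟩ -
      · exact ⟨l, rfl⟩
      · exact (hc l).elim
    constructor
    · rintro ⟨μ, hμ, hz⟩
      choose S hS S' hS' hR using fun i => (hq i _ _).1 (hμ i)
      refine ⟨_, ⟨S, S', hS, hS', rfl⟩, μ, ?_, hz⟩
      rintro e ⟨i, rfl⟩
      exact hR i
    · rintro ⟨_, ⟨S, S', hS, hS', rfl⟩, μ, h1, h4⟩
      refine ⟨μ, fun i => (hq i _ _).2 ⟨S i, hS i, S' i, hS' i, ?_⟩, h4⟩
      exact h1 _ ⟨i, rfl⟩

theorem u2c (h2 : U_q1_joint) (h3 : U_u0_pad) {A : Type} {r : ℕ} (Γ : Query A r)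
    (hΓ : Γ.IsUC2RPQ) :
    ∃ (tr : Fin (Γ.size + 1) → A × Bool → Fin (Γ.size + 1) → Prop)
      (U : Set (Set ((Fin (Γ.size + 1) × Fin (Γ.size + 1)) ×
        (Fin (Γ.size + 1) × Fin (Γ.size + 1))) × (Fin r → Fin (Γ.size + 1)))),
      ∀ (V : Type) [Nonempty V] (E : V → A → V → Prop) (z : Fin r → V),
        Γ.Sat E z ↔ USat tr U E z := by
  have hsum : ∑ j : Fin Γ.length, (Γ.get j).size = Query.size Γ := by
    show ∑ j : Fin Γ.length, (Γ.get j).size = (Γ.map CRQ.size).sum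
    have := Fin.sum_univ_fun_getElem Γ CRQ.size
    rw [← this]
    rfl
  have hle : ∀ j : Fin Γ.length, (Γ.get j).size ≤ Query.size Γ := by
    intro j
    rw [← hsum]
    exact Finset.single_le_sum (f := fun j : Fin Γ.length => (Γ.get j).size)
      (fun i _ => Nat.zero_le _) (Finset.mem_univ j)
  have hbs : ∀ t : CRQ A r, t.b.n + ∑ i, t.b.st i ≤ t.size := by
    intro t
    show t.b.n + ∑ i, t.b.st i ≤ 1 + (t.c + t.b.n + t.b.m + ∑ i, t.b.st i) + ∑ j, (t.sub j).size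
    omega
  have hn : ∀ j : Fin Γ.length, (Γ.get j).b.n ≤ Query.size Γ + 1 := by
    intro j
    have := hle j
    have := hbs (Γ.get j)
    omega
  choose U hU using crq_c h2 h3 (fun j : Fin Γ.length => Γ.get j)
    (fun j => hΓ _ (List.get_mem Γ j)) (Query.size Γ + 1) hn (Nat.succ_pos _)
  have hcard : Fintype.card (Σ j : Fin Γ.length, Σ i, Fin ((Γ.get j).b.st i)) ≤
      Query.size Γ + 1 := by
    have h5 : Fintype.card (Σ j : Fin Γ.length, Σ i, Fin ((Γ.get j).b.st i)) =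
        ∑ j : Fin Γ.length, ∑ i, (Γ.get j).b.st i := by
      simp only [Fintype.card_sigma, Fintype.card_fin]
    rw [h5]
    have h6 : ∑ j : Fin Γ.length, ∑ i, (Γ.get j).b.st i ≤ ∑ j : Fin Γ.length, (Γ.get j).size :=
      Finset.sum_le_sum fun j _ => by
        have := hbs (Γ.get j)
        omega
    omega
  obtain ⟨tr', U', h'⟩ := Pool.Agent.H90.SW.pad (s := Query.size Γ + 1) h3 (Nat.succ_pos _) le_rfl
    hcard (jt2 fun j : Fin Γ.length => joint (Γ.get j).b.aut) (⋃ j, U j)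
  refine ⟨tr', U', fun V _ E z => ?_⟩
  rw [← h']
  constructor
  · rintro ⟨t, ht, hz⟩
    obtain ⟨j, hj⟩ := List.get_of_mem ht
    obtain ⟨f, hf, hf2⟩ := (hU j V E z).1 (by rw [hj]; exact hz)
    exact ⟨f, Set.mem_iUnion.2 ⟨j, hf⟩, hf2⟩
  · rintro ⟨f, hf, hf2⟩
    obtain ⟨j, hj⟩ := Set.mem_iUnion.1 hf
    exact ⟨Γ.get j, List.get_mem Γ j, (hU j V E z).2 ⟨f, hj, hf2⟩⟩

end Pool.Agent.H76.SWU
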